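import Pool.Agent.MP_a9a3e0_al.Step

/-! The base case: a map from even braids on four strands to braids on three strands. -/

set_option autoImplicit false

noncomputable section

namespace Pool.Agent.MP_a9a3e0_al

open Equiv

def s0 : S 0 3 := ⟨σ 0, σ_mem le_rfl (by omega)⟩

def s1 : S 0 3 := ⟨σ 1, σ_mem (by omega) (by omega)⟩

def ba : S 0 3 := s0 * s1

def bb : S 0 3 := s0 * s0 * ba * (s0 * s0)⁻¹

theorem cube_comm {H : Type} [Group H] {p q : H} (h : p * q * p = q * p * q) :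
    p * (p * q * (p * q) * (p * q)) = p * q * (p * q) * (p * q) * p := by
  calc p * (p * q * (p * q) * (p * q)) = p * ((p * q * p) * (q * p * q)) := by group
    _ = p * ((q * p * q) * (p * q * p)) := by rw [← h]
    _ = _ := by group

theorem bb_cube : bb * bb * bb = ba * ba * ba := by
  have h : s0 * s1 * s0 = s1 * s0 * s1 := Subtype.ext (σ_braid 0)
  have h1 : s0 * (ba * ba * ba) = ba * ba * ba * s0 := cube_comm h
  calc bb * bb * bb = s0 * (s0 * (ba * ba * ba)) * (s0 * s0)⁻¹ := by unfold bb; group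
    _ = _ := by rw [h1, ← mul_assoc s0 _ s0, h1, mul_assoc _ s0 s0, mul_inv_cancel_right]

def T0 : Wr Bool (S 0 3) := ⟨Equiv.boolNot, fun e => cond e (ba⁻¹ * bb * bb) 1⟩

def T1 : Wr Bool (S 0 3) := ⟨Equiv.boolNot, fun e => cond e bb ((bb * bb)⁻¹ * ba * ba)⟩

theorem T_braid : T0 * T1 * T0 = T1 * T0 * T1 := by
  refine Wr.ext rfl (funext fun e => ?_)
  cases e
  · show 1 * bb * 1 = (bb * bb)⁻¹ * ba * ba * (ba⁻¹ * bb * bb) * ((bb * bb)⁻¹ * ba * ba)
    calc 1 * bb * 1 = (bb * bb)⁻¹ * (bb * bb * bb) := by group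
      _ = _ := by rw [bb_cube]; group
  · show ba⁻¹ * bb * bb * ((bb * bb)⁻¹ * ba * ba) * (ba⁻¹ * bb * bb) = bb * 1 * bb
    group

def θ : Braid 4 →* Wr Bool (S 0 3) :=
  liftB 4 (fun j => if j = 1 then T1 else T0)
    (fun i j h h' => by rw [if_neg (by omega), if_neg (by omega)])
    (fun i h => by
      obtain rfl | rfl : i = 0 ∨ i = 1 := by omega
      · exact T_braid
      · exact T_braid.symm)

def par : G →* Perm Bool := liftG (fun _ => Equiv.boolNot) (fun _ _ _ => rfl) fun _ => rfl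

theorem par_eq (x : G) : par x = Equiv.boolNot ^ dg x :=
  SS_ind (C := fun x => par x = Equiv.boolNot ^ dg x) (by simp)
    (fun j _ => by rw [dg_σ, zpow_one, par, liftG_σ])
    (fun x y _ _ a b => by rw [map_mul, a, b, dg_mul, zpow_add])
    (fun x _ a => by rw [map_inv, a, dg_inv, zpow_neg]) (mem_top x)

theorem θ_p (y : Braid 4) : (θ y).p = par (ι 4 y) := by
  have : (Wr.fst _ _).comp θ = par.comp (ι 4) := PresentedGroup.ext fun i => by
    rw [MonoidHom.comp_apply, MonoidHom.comp_apply, ι_of, par, liftG_σ, θ, liftB_of]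
    split_ifs <;> rfl
  exact DFunLike.congr_fun this y

theorem θ_even (x : Ev 4) : (θ (rho 4 ⟨x, x.2.1⟩)).p = 1 := by
  have h : (Equiv.boolNot : Perm Bool) ^ (2 : ℤ) = 1 := by
    ext e; cases e <;> rfl
  obtain ⟨d, hd⟩ : ∃ d, dg (x : G) = 2 * d := ⟨dg (x : G) / 2, by have := x.2.2; omega⟩
  rw [θ_p, ι_rho, par_eq, hd, zpow_mul, h, one_zpow]

def F0 : Ev 4 →* S 0 3 :=
  MonoidHom.mk' (fun x => (θ (rho 4 ⟨x, x.2.1⟩)).c false) fun x y => by
    have e : (⟨(x * y : Ev 4), (x * y).2.1⟩ : S 0 4) = ⟨x, x.2.1⟩ * ⟨y, y.2.1⟩ := rfl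
    rw [e, map_mul, map_mul, Wr.mul_c, θ_even]; rfl

def ev2 (i j : ℕ) (hi : i + 1 < 4) (hj : j + 1 < 4) : Ev 4 :=
  ⟨σ i * σ j, mul_mem (σ_mem (Nat.zero_le _) hi) (σ_mem (Nat.zero_le _) hj), by simp⟩

theorem F0_ev2 (i j : ℕ) (hi : i + 1 < 4) (hj : j + 1 < 4) : F0 (ev2 i j hi hj) =
    ((if i = 1 then T1 else T0) * (if j = 1 then T1 else T0)).c false := by
  have e : (⟨ev2 i j hi hj, (ev2 i j hi hj).2.1⟩ : S 0 4) =
    ⟨σ i, σ_mem (Nat.zero_le _) hi⟩ * ⟨σ j, σ_mem (Nat.zero_le _) hj⟩ := rfl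
  show (θ (rho 4 ⟨ev2 i j hi hj, _⟩)).c false = _
  rw [e, map_mul, map_mul, rho_σ hi, rho_σ hj, bg, bg, dif_pos hi, dif_pos hj, θ, liftB_of, liftB_of]

def al : Ev 4 := ev2 0 1 (by omega) (by omega)

def be : Ev 4 := ev2 1 0 (by omega) (by omega)

def ga : Ev 4 := ev2 0 0 (by omega) (by omega)

theorem F0_al : F0 al = ba := by
  rw [al, F0_ev2]
  show ba⁻¹ * bb * bb * ((bb * bb)⁻¹ * ba * ba) = ba
  group

theorem F0_be : F0 be = bb := by
  rw [be, F0_ev2]
  exact mul_one _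

theorem F0_ga : F0 ga = ba⁻¹ * bb * bb := by
  rw [ga, F0_ev2]
  exact mul_one _

/-- colourings modulo seven -/
def col (j : ℕ) : Perm (ℕ → ZMod 7) where
  toFun v t := if t = j then 2 * v j - v (j + 1) else if t = j + 1 then v j else v t
  invFun v t := if t = j then v (j + 1) else if t = j + 1 then 2 * v (j + 1) - v j else v t
  left_inv v := by
    funext t
    by_cases h1 : t = j
    · simp [h1]
    · by_cases h2 : t = j + 1 <;> simp [h1, h2]
  right_inv v := by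
    funext t
    by_cases h1 : t = j
    · simp [h1]
    · by_cases h2 : t = j + 1 <;> simp [h1, h2]

theorem col_apply (j : ℕ) (v : ℕ → ZMod 7) (t : ℕ) :
    col j v t = if t = j then 2 * v j - v (j + 1) else if t = j + 1 then v j else v t := rfl

def M : G →* Perm (ℕ → ZMod 7) :=
  liftG col
    (fun i j h => by
      ext v t
      simp only [Perm.mul_apply, col_apply]
      split_ifs <;> first | rfl | omega)
    (fun i => by
      ext v t
      simp only [Perm.mul_apply, col_apply]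
      split_ifs <;> first | omega | ring)

/-- a matrix acting on the first three colours -/
def ex (Q : Matrix (Fin 3) (Fin 3) (ZMod 7)) (v : ℕ → ZMod 7) (t : ℕ) : ZMod 7 :=
  if h : t < 3 then ∑ j, Q ⟨t, h⟩ j * v j else v t

def Rp (x : G) (Q : Matrix (Fin 3) (Fin 3) (ZMod 7)) : Prop := ∀ v, M x v = ex Q v

theorem Rp.mul {x y : G} {Q R : Matrix (Fin 3) (Fin 3) (ZMod 7)} (h : Rp x Q) (h' : Rp y R) :
    Rp (x * y) (Q * R) := fun v => by
  rw [map_mul, Perm.mul_apply, h', h]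
  funext t
  unfold ex
  split_ifs with ht
  · simp only [Fin.is_lt, dif_pos, Fin.eta, Matrix.mul_apply, Fin.sum_univ_three]; ring
  · rfl

theorem Rp.eq {x y : G} {Q R : Matrix (Fin 3) (Fin 3) (ZMod 7)} (h : Rp x Q) (h' : Rp y R) :
    M x = M y ↔ Q = R := by
  refine ⟨fun e => ?_, fun e => by ext1 v; rw [h, h', e]⟩
  ext i j
  have := congrFun ((h fun t => if t = j then 1 else 0).symm.trans
    (e ▸ h' fun t => if t = j then 1 else 0)) i
  simpa [ex, Fin.val_inj] using this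

theorem Rp_0 : Rp (σ 0) !![2, -1, 0; 1, 0, 0; 0, 0, 1] := fun v => by
  rw [M, liftG_σ]
  funext t
  rcases t with _ | _ | _ | t <;> simp [col_apply, ex, Fin.sum_univ_three, sub_eq_add_neg]

theorem Rp_1 : Rp (σ 1) !![1, 0, 0; 0, 2, -1; 0, 1, 0] := fun v => by
  rw [M, liftG_σ]
  funext t
  rcases t with _ | _ | _ | t <;> simp [col_apply, ex, Fin.sum_univ_three, sub_eq_add_neg]

theorem Rp_0' : Rp (σ 0)⁻¹ !![0, 1, 0; -1, 2, 0; 0, 0, 1] := fun v => by
  rw [map_inv, M, liftG_σ]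
  funext t
  show (col 0).invFun v t = _
  rcases t with _ | _ | _ | t <;> simp [col, ex, Fin.sum_univ_three]
  ring

theorem Rp_a : Rp ba !![2, 5, 1; 1, 0, 0; 0, 1, 0] := by
  have h := Rp_0.mul Rp_1
  rwa [show !![2, -1, 0; 1, 0, 0; 0, 0, 1] * !![1, 0, 0; 0, 2, -1; 0, 1, 0] =
    (!![2, 5, 1; 1, 0, 0; 0, 1, 0] : Matrix (Fin 3) (Fin 3) (ZMod 7)) by decide] at h

theorem Rp_b : Rp bb !![1, 4, 3; 5, 1, 2; 5, 3, 0] := by
  have h := ((Rp_0.mul Rp_0).mul Rp_a).mul (Rp_0'.mul Rp_0')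
  rw [← mul_inv_rev] at h
  rwa [show !![2, -1, 0; 1, 0, 0; 0, 0, 1] * !![2, -1, 0; 1, 0, 0; 0, 0, 1] *
    !![2, 5, 1; 1, 0, 0; 0, 1, 0] * (!![0, 1, 0; -1, 2, 0; 0, 0, 1] *
    !![0, 1, 0; -1, 2, 0; 0, 0, 1]) =
    (!![1, 4, 3; 5, 1, 2; 5, 3, 0] : Matrix (Fin 3) (Fin 3) (ZMod 7)) by decide] at h

/-- the test word -/
def wd {H : Type} [Group H] (p q : H) : H :=
  p * p * q * p * q * q * (q * p * q * p * q * p)⁻¹

theorem M_wd : M (wd (ba : G) bb) = 1 := by
  rw [wd, map_mul, map_inv, mul_inv_eq_one,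
    (((((Rp_a.mul Rp_a).mul Rp_b).mul Rp_a).mul Rp_b).mul Rp_b).eq
      (((((Rp_b.mul Rp_a).mul Rp_b).mul Rp_a).mul Rp_b).mul Rp_a)]
  decide +kernel

theorem M_wd' : M (wd (bb : G) ba) ≠ 1 := by
  rw [wd, map_mul, map_inv, Ne, mul_inv_eq_one,
    (((((Rp_b.mul Rp_b).mul Rp_a).mul Rp_b).mul Rp_a).mul Rp_a).eq
      (((((Rp_a.mul Rp_b).mul Rp_a).mul Rp_b).mul Rp_a).mul Rp_b)]
  decide +kernel

theorem F0_noSwap : NoSwap F0 := by
  rintro ⟨s, hs⟩
  have h := hs (wd al be) (wd (ga * be * ga⁻¹) al) (by simp [wd, al, be, ev2]) (by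
    simp only [wd, al, be, ga, ev2, Subgroup.coe_mul, Subgroup.coe_inv]; group)
  have e1 : (F0 (wd al be) : G) = wd (ba : G) bb := by
    simp only [wd, map_mul, map_inv, F0_al, F0_be, Subgroup.coe_mul, Subgroup.coe_inv]
  have e2 : (F0 (wd (ga * be * ga⁻¹) al) : G) = (ba : G)⁻¹ * wd (bb : G) ba * ba := by
    simp only [wd, map_mul, map_inv, F0_al, F0_be, F0_ga, Subgroup.coe_mul, Subgroup.coe_inv,
      mul_inv_rev, inv_inv, mul_assoc, mul_inv_cancel_left, inv_mul_cancel_left, inv_mul_cancel,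
      mul_inv_cancel, mul_one]
  have h2 := congrArg M h
  rw [e1, e2, map_mul, map_mul, M_wd, mul_one, ← map_mul, mul_inv_cancel, map_one, map_mul,
    map_mul, map_inv, mul_assoc, eq_inv_mul_iff_mul_eq, mul_one] at h2
  apply M_wd'
  calc M (wd (bb : G) ba) = M (wd (bb : G) ba) * M ba * (M ba)⁻¹ := (mul_inv_cancel_right _ _).symm
    _ = 1 := by rw [← h2, mul_inv_cancel]

end Pool.Agent.MP_a9a3e0_al
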