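import Pool.Agent.MP_a9a3e0_al.Defs

/-! The braid group on infinitely many strands, its permutations, degree and shifts. -/

set_option autoImplicit false

noncomputable section

namespace Pool.Agent.MP_a9a3e0_al

open Equiv

def relsN : Set (FreeGroup ℕ) :=
  {r | (∃ i j : ℕ, i + 2 ≤ j ∧
        r = FreeGroup.of i * FreeGroup.of j * (FreeGroup.of j * FreeGroup.of i)⁻¹) ∨
      (∃ i j : ℕ, i + 1 = j ∧
        r = FreeGroup.of i * FreeGroup.of j * FreeGroup.of i *
          (FreeGroup.of j * FreeGroup.of i * FreeGroup.of j)⁻¹)}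

/-- braids on the strands `0, 1, 2, …` -/
abbrev G : Type := PresentedGroup relsN

def σ (i : ℕ) : G := PresentedGroup.of i

theorem σ_comm {i j : ℕ} (h : i + 2 ≤ j) : σ i * σ j = σ j * σ i := by
  have h1 : PresentedGroup.mk relsN (FreeGroup.of i * FreeGroup.of j) =
      PresentedGroup.mk relsN (FreeGroup.of j * FreeGroup.of i) :=
    PresentedGroup.mk_eq_mk_of_mul_inv_mem (Or.inl ⟨i, j, h, rfl⟩)
  exact h1

theorem σ_braid (i : ℕ) : σ i * σ (i + 1) * σ i = σ (i + 1) * σ i * σ (i + 1) := by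
  have h1 : PresentedGroup.mk relsN (FreeGroup.of i * FreeGroup.of (i + 1) * FreeGroup.of i) =
      PresentedGroup.mk relsN (FreeGroup.of (i + 1) * FreeGroup.of i * FreeGroup.of (i + 1)) :=
    PresentedGroup.mk_eq_mk_of_mul_inv_mem (Or.inr ⟨i, i + 1, rfl, rfl⟩)
  exact h1

section lift

variable {H : Type} [Group H]

def liftG (f : ℕ → H) (h1 : ∀ i j, i + 2 ≤ j → f i * f j = f j * f i)
    (h2 : ∀ i, f i * f (i + 1) * f i = f (i + 1) * f i * f (i + 1)) : G →* H :=
  PresentedGroup.toGroup (f := f) (by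
    rintro r (⟨i, j, h, rfl⟩ | ⟨i, j, rfl, rfl⟩)
    · simp only [map_mul, map_inv, FreeGroup.lift_apply_of, mul_inv_eq_one]; exact h1 i j h
    · simp only [map_mul, map_inv, FreeGroup.lift_apply_of, mul_inv_eq_one]; exact h2 i)

@[simp] theorem liftG_σ (f : ℕ → H) (h1 : ∀ i j, i + 2 ≤ j → f i * f j = f j * f i)
    (h2 : ∀ i, f i * f (i + 1) * f i = f (i + 1) * f i * f (i + 1)) (i : ℕ) :
    liftG f h1 h2 (σ i) = f i := PresentedGroup.toGroup.of _

def liftB (n : ℕ) (f : ℕ → H) (h1 : ∀ i j, i + 2 ≤ j → j + 1 < n → f i * f j = f j * f i)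
    (h2 : ∀ i, i + 2 < n → f i * f (i + 1) * f i = f (i + 1) * f i * f (i + 1)) : Braid n →* H :=
  PresentedGroup.toGroup (f := fun i : Fin (n - 1) => f i.val) (by
    rintro r (⟨i, j, h, rfl⟩ | ⟨i, j, h, rfl⟩)
    · simp only [map_mul, map_inv, FreeGroup.lift_apply_of, mul_inv_eq_one]
      exact h1 i j h (by have := j.2; omega)
    · simp only [map_mul, map_inv, FreeGroup.lift_apply_of, mul_inv_eq_one, ← h]
      exact h2 i (by have := j.2; omega))

@[simp] theorem liftB_of (n : ℕ) (f : ℕ → H)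
    (h1 : ∀ i j, i + 2 ≤ j → j + 1 < n → f i * f j = f j * f i)
    (h2 : ∀ i, i + 2 < n → f i * f (i + 1) * f i = f (i + 1) * f i * f (i + 1)) (i : Fin (n - 1)) :
    liftB n f h1 h2 (PresentedGroup.of i) = f i.val := PresentedGroup.toGroup.of _

theorem G_ext {φ ψ : G →* H} (h : ∀ i, φ (σ i) = ψ (σ i)) : φ = ψ := PresentedGroup.ext h

end lift

/-- the generator number `r` of `B_m`, or `1` -/
def bg (m r : ℕ) : Braid m := if h : r + 1 < m then PresentedGroup.of ⟨r, by omega⟩ else 1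

theorem bg_comm (m : ℕ) {i j : ℕ} (h : i + 2 ≤ j) : bg m i * bg m j = bg m j * bg m i := by
  unfold bg
  by_cases hj : j + 1 < m
  · have hi : i + 1 < m := by omega
    rw [dif_pos hi, dif_pos hj]
    have h1 : PresentedGroup.mk (rels m) (FreeGroup.of ⟨i, by omega⟩ * FreeGroup.of ⟨j, by omega⟩) =
        PresentedGroup.mk (rels m) (FreeGroup.of ⟨j, by omega⟩ * FreeGroup.of ⟨i, by omega⟩) :=
      PresentedGroup.mk_eq_mk_of_mul_inv_mem (Or.inl ⟨_, _, h, rfl⟩)
    exact h1
  · rw [dif_neg hj, mul_one, one_mul]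

theorem bg_braid (m : ℕ) {i : ℕ} (h : i + 2 < m) :
    bg m i * bg m (i + 1) * bg m i = bg m (i + 1) * bg m i * bg m (i + 1) := by
  unfold bg
  rw [dif_pos (by omega : i + 1 < m), dif_pos (by omega : i + 1 + 1 < m)]
  have h1 : PresentedGroup.mk (rels m) (FreeGroup.of ⟨i, by omega⟩ *
      FreeGroup.of ⟨i + 1, by omega⟩ * FreeGroup.of ⟨i, by omega⟩) =
      PresentedGroup.mk (rels m) (FreeGroup.of ⟨i + 1, by omega⟩ * FreeGroup.of ⟨i, by omega⟩ *
        FreeGroup.of ⟨i + 1, by omega⟩) :=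
    PresentedGroup.mk_eq_mk_of_mul_inv_mem (Or.inr ⟨_, _, rfl, rfl⟩)
  exact h1

/-- the subgroup generated by the `σ t` with `p t` -/
def SS (p : ℕ → Prop) : Subgroup G := Subgroup.closure {x | ∃ t, p t ∧ x = σ t}

/-- braids on the strands `a ≤ t < b` -/
def S (a b : ℕ) : Subgroup G := SS fun t => a ≤ t ∧ t + 1 < b

theorem σ_mem_SS {p : ℕ → Prop} {t : ℕ} (h : p t) : σ t ∈ SS p :=
  Subgroup.subset_closure ⟨t, h, rfl⟩

theorem σ_mem {a b t : ℕ} (h : a ≤ t) (h' : t + 1 < b) : σ t ∈ S a b := σ_mem_SS ⟨h, h'⟩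

theorem SS_le {p : ℕ → Prop} {K : Subgroup G} (h : ∀ t, p t → σ t ∈ K) : SS p ≤ K :=
  (Subgroup.closure_le K).2 (by rintro x ⟨t, ht, rfl⟩; exact h t ht)

theorem S_mono {a b a' b' : ℕ} (h : a' ≤ a) (h' : b ≤ b') : S a b ≤ S a' b' :=
  SS_le fun t ht => σ_mem (by omega) (by omega)

theorem SS_ind {p : ℕ → Prop} {C : G → Prop} (h1 : C 1) (hσ : ∀ t, p t → C (σ t))
    (hm : ∀ x y, x ∈ SS p → y ∈ SS p → C x → C y → C (x * y))
    (hi : ∀ x, x ∈ SS p → C x → C x⁻¹) {x : G} (hx : x ∈ SS p) : C x := by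
  unfold SS at hx
  induction hx using Subgroup.closure_induction with
  | mem x hx => obtain ⟨t, ht, rfl⟩ := hx; exact hσ t ht
  | one => exact h1
  | mul x y hx hy a b => exact hm x y hx hy a b
  | inv x hx a => exact hi x hx a

theorem mem_top (x : G) : x ∈ SS fun _ => True :=
  PresentedGroup.generated_by relsN _ (fun j => σ_mem_SS (t := j) trivial) x

/-- two homomorphisms that agree on the generators agree on the subgroup -/
theorem SS_hom {H : Type} [Group H] {p : ℕ → Prop} (φ ψ : G →* H)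
    (h : ∀ t, p t → φ (σ t) = ψ (σ t)) {x : G} (hx : x ∈ SS p) : φ x = ψ x :=
  SS_le (K := φ.eqLocus ψ) h hx

theorem S_comm {a b c d : ℕ} (h : b ≤ c) {x y : G} (hx : x ∈ S a b) (hy : y ∈ S c d) :
    x * y = y * x := by
  have h1 : ∀ t, a ≤ t ∧ t + 1 < b → y * σ t * y⁻¹ = σ t := fun t ht => by
    have h2 := SS_hom (MulAut.conj (σ t)).toMonoidHom (MonoidHom.id G) (fun u hu => by
      have h3 := σ_comm (i := t) (j := u) (by omega)
      simp only [MulEquiv.toMonoidHom_eq_coe, MonoidHom.coe_coe, MulAut.conj_apply,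
        MonoidHom.id_apply, h3, mul_inv_cancel_right]) hy
    simp only [MulEquiv.toMonoidHom_eq_coe, MonoidHom.coe_coe, MulAut.conj_apply,
      MonoidHom.id_apply] at h2
    rw [mul_inv_eq_iff_eq_mul] at h2 ⊢
    exact h2.symm
  have h2 := SS_hom (MulAut.conj y).toMonoidHom (MonoidHom.id G) h1 hx
  simp only [MulEquiv.toMonoidHom_eq_coe, MonoidHom.coe_coe, MulAut.conj_apply,
    MonoidHom.id_apply] at h2
  rw [mul_inv_eq_iff_eq_mul] at h2
  exact h2.symm

/-- the permutation of the strands -/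
def perm : G →* Perm ℕ :=
  liftG (fun j => swap j (j + 1))
    (fun i j h => by
      ext t; simp only [Perm.mul_apply, swap_apply_def]; split_ifs <;> omega)
    (fun i => by
      ext t; simp only [Perm.mul_apply, swap_apply_def]; split_ifs <;> omega)

theorem perm_σ (j : ℕ) : perm (σ j) = swap j (j + 1) := liftG_σ _ _ _ _

theorem perm_σ_apply (j t : ℕ) :
    perm (σ j) t = if t = j then j + 1 else if t = j + 1 then j else t := by
  rw [perm_σ, swap_apply_def]

theorem perm_mul (x y : G) (t : ℕ) : perm (x * y) t = perm x (perm y t) := by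
  rw [map_mul, Perm.mul_apply]

@[simp] theorem perm_inv_perm (x : G) (t : ℕ) : perm x⁻¹ (perm x t) = t := by
  rw [← perm_mul, inv_mul_cancel, map_one, Perm.one_apply]

@[simp] theorem perm_perm_inv (x : G) (t : ℕ) : perm x (perm x⁻¹ t) = t := by
  rw [← perm_mul, mul_inv_cancel, map_one, Perm.one_apply]

theorem perm_σ_inv (j : ℕ) : perm (σ j)⁻¹ = perm (σ j) := by
  rw [map_inv, perm_σ, swap_inv]

/-- a function that is constant along the generators is constant along the subgroup -/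
theorem perm_pres {Y : Type} (f : ℕ → Y) {p : ℕ → Prop} (h : ∀ t, p t → f t = f (t + 1)) {x : G}
    (hx : x ∈ SS p) (t : ℕ) : f (perm x t) = f t := by
  revert t
  refine SS_ind (C := fun x => ∀ t, f (perm x t) = f t) (by simp) (fun j hj t => ?_)
    (fun x y _ _ a b t => by rw [perm_mul, a, b])
    (fun x _ a t => by rw [← a (perm x⁻¹ t), perm_perm_inv]) hx
  rw [perm_σ_apply]
  split_ifs with h1 h2
  · rw [h1, h j hj]
  · rw [h2, h j hj]
  · rfl

theorem perm_fix {a b : ℕ} {x : G} (hx : x ∈ S a b) {t : ℕ} (ht : t < a ∨ b ≤ t) :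
    perm x t = t := by
  have h := perm_pres (fun u => decide (u = t)) (p := fun t => a ≤ t ∧ t + 1 < b)
    (fun u hu => by rw [decide_eq_decide]; omega) hx t
  simpa using h

theorem perm_lt {a b c : ℕ} {x : G} (hx : x ∈ S a b) (hc : c ≤ a ∨ b ≤ c) (t : ℕ) :
    perm x t < c ↔ t < c := by
  have h := perm_pres (fun u => decide (u < c)) (p := fun t => a ≤ t ∧ t + 1 < b)
    (fun u hu => by rw [decide_eq_decide]; omega) hx t
  simpa using h

/-- the degree -/
def deg : G →* Multiplicative ℤ :=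
  liftG (fun _ => Multiplicative.ofAdd 1) (fun _ _ _ => rfl) fun _ => rfl

def dg (x : G) : ℤ := Multiplicative.toAdd (deg x)

@[simp] theorem dg_σ (j : ℕ) : dg (σ j) = 1 := by
  unfold dg deg; rw [liftG_σ]; rfl

@[simp] theorem dg_one : dg 1 = 0 := by unfold dg; rw [map_one]; rfl

@[simp] theorem dg_mul (x y : G) : dg (x * y) = dg x + dg y := by unfold dg; rw [map_mul]; rfl

@[simp] theorem dg_inv (x : G) : dg x⁻¹ = -dg x := by unfold dg; rw [map_inv]; rfl

@[simp] theorem dg_pow (x : G) (k : ℕ) : dg (x ^ k) = k * dg x := by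
  unfold dg; rw [map_pow, toAdd_pow, nsmul_eq_mul]

@[simp] theorem dg_zpow (x : G) (k : ℤ) : dg (x ^ k) = k * dg x := by
  unfold dg; rw [map_zpow, toAdd_zpow, zsmul_eq_mul, Int.cast_id]

/-- the shift by `d` strands -/
def sh (d : ℕ) : G →* G :=
  liftG (fun j => σ (j + d)) (fun i j h => σ_comm (by omega)) fun i => by
    rw [Nat.add_right_comm]; exact σ_braid _

@[simp] theorem sh_σ (d j : ℕ) : sh d (σ j) = σ (j + d) := liftG_σ _ _ _ _

theorem sh_zero (x : G) : sh 0 x = x := by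
  rw [show sh 0 = MonoidHom.id G from G_ext fun i => by simp]; rfl

theorem sh_sh (d e : ℕ) (x : G) : sh d (sh e x) = sh (e + d) x := by
  have : (sh d).comp (sh e) = sh (e + d) := G_ext fun i => by simp [add_assoc]
  rw [← this]; rfl

theorem sh_mem {a b : ℕ} (d : ℕ) {x : G} (hx : x ∈ S a b) : sh d x ∈ S (a + d) (b + d) :=
  SS_le (K := (S (a + d) (b + d)).comap (sh d))
    (fun t ht => by rw [Subgroup.mem_comap, sh_σ]; exact σ_mem (by omega) (by omega)) hx

/-- the natural map from `B_m` -/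
def ι (m : ℕ) : Braid m →* G := liftB m σ (fun _ _ h _ => σ_comm h) fun i _ => σ_braid i

theorem ι_of (m : ℕ) (i : Fin (m - 1)) : ι m (PresentedGroup.of i) = σ i := liftB_of _ _ _ _ _

theorem ι_bg {m r : ℕ} (h : r + 1 < m) : ι m (bg m r) = σ r := by
  unfold bg; rw [dif_pos h, ι_of]

theorem ι_mem (m : ℕ) (y : Braid m) : ι m y ∈ S 0 m :=
  PresentedGroup.generated_by (rels m) ((S 0 m).comap (ι m)) (fun j => by
    rw [Subgroup.mem_comap, ι_of]; exact σ_mem (by omega) (by have := j.2; omega)) y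

theorem range_ι (m : ℕ) : (ι m).range = S 0 m := by
  refine le_antisymm ?_ (SS_le fun t ht => ⟨bg m t, ι_bg ht.2⟩)
  rintro _ ⟨y, rfl⟩; exact ι_mem m y

end Pool.Agent.MP_a9a3e0_al
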