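import Pool.Agent.MP_a9a3e0_al.Del

/-! Cabling: every strand is replaced by `k` parallel strands. -/

set_option autoImplicit false

noncomputable section

namespace Pool.Agent.MP_a9a3e0_al

open Equiv Classical

/-- the strand `a + q` crosses the strands `a, …, a + q - 1` -/
def up (a : ℕ) : ℕ → G
  | 0 => 1
  | q + 1 => up a q * σ (a + q)

theorem up_mem (a q : ℕ) : up a q ∈ S a (a + q + 1) := by
  induction q with
  | zero => exact one_mem _
  | succ q ih => exact mul_mem (S_mono le_rfl (by omega) ih) (σ_mem (by omega) (by omega))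

theorem up_succ' (a q : ℕ) : up a (q + 1) = σ a * up (a + 1) q := by
  induction q with
  | zero => simp [up]
  | succ q ih => rw [up, ih, up, mul_assoc, show a + (q + 1) = a + 1 + q by omega]

theorem sh_up (d a q : ℕ) : sh d (up a q) = up (a + d) q := by
  induction q with
  | zero => simp [up]
  | succ q ih => rw [up, up, map_mul, ih, sh_σ, Nat.add_right_comm]

theorem up_σ {a q t : ℕ} (h : a ≤ t) (h' : t + 1 < a + q) : up a q * σ t = σ (t + 1) * up a q := by
  induction q with
  | zero => omega
  | succ q ih =>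
    rcases Nat.lt_or_ge (t + 1) (a + q) with h1 | h1
    · rw [up, mul_assoc, ← σ_comm (by omega : t + 2 ≤ a + q), ← mul_assoc, ih h1, mul_assoc]
    · obtain ⟨q, rfl⟩ : ∃ r, q = r + 1 := ⟨q - 1, by omega⟩
      have e : t = a + q := by omega
      have c := S_comm le_rfl (up_mem a q)
        (σ_mem (a := a + q + 1) (b := a + q + 3) le_rfl (by omega))
      rw [e, up, up, ← add_assoc]
      calc up a q * σ (a + q) * σ (a + q + 1) * σ (a + q)
          = up a q * (σ (a + q) * σ (a + q + 1) * σ (a + q)) := by simp only [mul_assoc]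
        _ = up a q * σ (a + q + 1) * σ (a + q) * σ (a + q + 1) := by
          rw [σ_braid]; simp only [mul_assoc]
        _ = _ := by rw [c]; simp only [mul_assoc]

/-- a relation `g σ_t = σ_{φ t} g` extends to the subgroup -/
theorem nat_ext {g : G} {p : ℕ → Prop} (φ ψ : G →* G)
    (h : ∀ t, p t → g * φ (σ t) = ψ (σ t) * g) {x : G} (hx : x ∈ SS p) :
    g * φ x = ψ x * g := by
  have := SS_hom ((MulAut.conj g).toMonoidHom.comp φ) ψ (fun t ht => by
    simp only [MulEquiv.toMonoidHom_eq_coe, MonoidHom.comp_apply, MonoidHom.coe_coe,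
      MulAut.conj_apply, h t ht, mul_inv_cancel_right]) hx
  simp only [MulEquiv.toMonoidHom_eq_coe, MonoidHom.comp_apply, MonoidHom.coe_coe,
    MulAut.conj_apply] at this
  rw [← this, inv_mul_cancel_right]

theorem up_up (a q : ℕ) : up a (q + 1) * up a q = up (a + 1) q * up a (q + 1) := by
  have := nat_ext (g := up a (q + 1)) (MonoidHom.id G) (sh 1)
    (fun t ht => by rw [sh_σ]; exact up_σ ht.1 ht.2) (up_mem a q)
  rwa [sh_up] at this

theorem perm_up (a q t : ℕ) : perm (up a q) t =
    if t < a then t else if t < a + q then t + 1 else if t = a + q then a else t := by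
  induction q generalizing t with
  | zero => simp only [up, map_one, Perm.one_apply]; split_ifs <;> omega
  | succ q ih => rw [up, perm_mul, ih, perm_σ_apply]; split_ifs <;> omega

theorem del_up (a q : ℕ) (A : Set ℕ) : del A (up a q) =
    if a + q ∈ A then up (rk A a) (rk A (a + q) - rk A a) else 1 := by
  induction q generalizing A with
  | zero => simp [up]
  | succ q ih =>
    rw [up, del_mul, ih, del_σ, mem_act_σ, if_pos rfl, rk_σ _ _ (by omega), rk_σ _ _ (by omega),
      ← add_assoc]
    by_cases h1 : a + q + 1 ∈ A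
    · have h3 := rk_mono A (Nat.le_add_right a q)
      by_cases h2 : a + q ∈ A
      · rw [if_pos h1, if_pos h1, if_pos ⟨h2, h1⟩, rk_mem h2, Nat.sub_add_comm h3, up,
          Nat.add_sub_cancel' h3]
      · rw [if_pos h1, if_pos h1, if_neg fun h => h2 h.1, rk_not h2, mul_one]
    · rw [if_neg h1, if_neg h1, if_neg fun h => h1 h.2, mul_one]

/-- the `p` strands from `a + q` on cross the `q` strands from `a` on -/
def β (q : ℕ) : ℕ → ℕ → G
  | 0, _ => 1
  | p + 1, a => β q p (a + 1) * up a q

theorem β_mem (q p a : ℕ) : β q p a ∈ S a (a + q + p) := by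
  induction p generalizing a with
  | zero => exact one_mem _
  | succ p ih =>
    exact mul_mem (S_mono (by omega) (by omega) (ih (a + 1))) (S_mono le_rfl (by omega) (up_mem a q))

theorem sh_β (d q p a : ℕ) : sh d (β q p a) = β q p (a + d) := by
  induction p generalizing a with
  | zero => simp [β]
  | succ p ih => rw [β, β, map_mul, ih, sh_up, Nat.add_right_comm]

theorem β_zero (p a : ℕ) : β 0 p a = 1 := by
  induction p generalizing a with
  | zero => rfl
  | succ p ih => rw [β, ih, up, mul_one]

theorem β_add (q p₁ p₂ a : ℕ) : β q (p₂ + p₁) a = β q p₂ (a + p₁) * β q p₁ a := by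
  induction p₁ generalizing a with
  | zero => simp [β]
  | succ p ih => rw [← add_assoc, β, β, ih, mul_assoc, show a + 1 + p = a + (p + 1) by omega]

theorem β_up {q p a t : ℕ} (h : a ≤ t) (h' : t + 1 < a + q) :
    β q p a * σ t = σ (t + p) * β q p a := by
  induction p generalizing a t with
  | zero => simp [β]
  | succ p ih =>
    rw [β, mul_assoc, up_σ h h', ← mul_assoc, ih (by omega) (by omega), mul_assoc,
      show t + 1 + p = t + (p + 1) by omega]

theorem β_down {q p a t : ℕ} (h : a ≤ t) (h' : t + 1 < a + p) :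
    β q p a * σ (t + q) = σ t * β q p a := by
  induction p generalizing a with
  | zero => omega
  | succ p ih =>
    rcases h.eq_or_lt with rfl | h1
    · obtain ⟨p, rfl⟩ : ∃ r, p = r + 1 := ⟨p - 1, by omega⟩
      have c := S_comm le_rfl (σ_mem (a := a) (b := a + 1 + 1) le_rfl (by omega))
        (β_mem q p (a + 1 + 1))
      rw [β, β]
      calc β q p (a + 1 + 1) * up (a + 1) q * up a q * σ (a + q)
          = β q p (a + 1 + 1) * (up (a + 1) q * up a (q + 1)) := by rw [up]; simp only [mul_assoc]
        _ = β q p (a + 1 + 1) * σ a * (up (a + 1) q * up a q) := by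
          rw [← up_up, up_succ']; simp only [mul_assoc]
        _ = _ := by rw [← c]; simp only [mul_assoc]
    · have c := S_comm le_rfl (up_mem a q)
        (σ_mem (a := a + q + 1) (b := t + q + 2) (t := t + q) (by omega) (by omega))
      rw [β, mul_assoc, c, ← mul_assoc, ih h1 (by omega), mul_assoc]

theorem perm_β (q p a t : ℕ) : perm (β q p a) t =
    if t < a then t else if t < a + q then t + p else if t < a + q + p then t - q else t := by
  induction p generalizing a t with
  | zero => simp only [β, map_one, Perm.one_apply]; split_ifs <;> omega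
  | succ p ih => rw [β, perm_mul, ih, perm_up]; split_ifs <;> omega

theorem del_β (q p a : ℕ) (A : Set ℕ) : del A (β q p a) =
    β (rk A (a + q) - rk A a) (rk A (a + q + p) - rk A (a + q)) (rk A a) := by
  induction p generalizing a A with
  | zero => simp [β]
  | succ p ih =>
    have e0 : a ∈ act (up a q) A ↔ a + q ∈ A := by
      have : perm (up a q) (a + q) = a := by rw [perm_up]; split_ifs <;> omega
      rw [← perm_mem_act (x := up a q) (t := a + q), this]
    have e1 : rk (act (up a q) A) (a + 1) = rk A a + if a + q ∈ A then 1 else 0 := by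
      rw [rk_succ, rk_act (up_mem a q) (Or.inl le_rfl), e0]
    have e2 : rk (act (up a q) A) (a + 1 + q) = rk A (a + q + 1) := by
      rw [rk_act (up_mem a q) (Or.inr (by omega)), Nat.add_right_comm]
    have e3 : rk (act (up a q) A) (a + 1 + q + p) = rk A (a + q + (p + 1)) := by
      rw [rk_act (up_mem a q) (Or.inr (by omega))]; congr 1; omega
    have h3 : rk A (a + q + 1) ≤ rk A (a + q + (p + 1)) := rk_mono A (by omega)
    rw [β, del_mul, ih, del_up, e1, e2, e3]
    by_cases h : a + q ∈ A
    · rw [rk_mem h] at h3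
      rw [if_pos h, if_pos h, rk_mem h, Nat.add_sub_add_right,
        show rk A (a + q + (p + 1)) - rk A (a + q) =
          rk A (a + q + (p + 1)) - (rk A (a + q) + 1) + 1 by omega, β]
    · rw [if_neg h, if_neg h, rk_not h, add_zero, mul_one]

/-- the cabling map -/
def cab (k : ℕ) : G →* G :=
  liftG (fun j => β k k (j * k))
    (fun i j h => S_comm (by nlinarith) (β_mem k k (i * k)) (β_mem k k (j * k)))
    (fun i => by
      have e := β_add k k k (i * k)
      have n := nat_ext (g := β k (k + k) (i * k)) (sh k) (MonoidHom.id G)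
        (fun t ht => by rw [sh_σ]; exact β_down ht.1 (by have := ht.2; omega)) (β_mem k k (i * k))
      rw [sh_β, MonoidHom.id_apply, e] at n
      rw [add_mul, one_mul, n, mul_assoc])

theorem cab_σ (k j : ℕ) : cab k (σ j) = β k k (j * k) := liftG_σ _ _ _ _

theorem cab_mem (k : ℕ) {n : ℕ} {x : G} (hx : x ∈ S 0 n) : cab k x ∈ S 0 (n * k) :=
  SS_le (K := (S 0 (n * k)).comap (cab k)) (fun t ht => by
    rw [Subgroup.mem_comap, cab_σ]
    exact S_mono (Nat.zero_le _) (by have := ht.2; nlinarith) (β_mem k k (t * k))) hx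

theorem perm_cab (k : ℕ) (x : G) (i : ℕ) {r : ℕ} (hr : r < k) :
    perm (cab k x) (i * k + r) = perm x i * k + r := by
  revert i
  refine SS_ind (C := fun x => ∀ i, perm (cab k x) (i * k + r) = perm x i * k + r) (by simp)
    (fun j _ i => ?_) (fun x y _ _ a b i => by rw [map_mul, perm_mul, perm_mul, b, a])
    (fun x _ a i => ?_) (mem_top x)
  · rw [cab_σ, perm_β, perm_σ_apply]
    rcases lt_trichotomy i j with h | rfl | h
    · have : (i + 1) * k ≤ j * k := Nat.mul_le_mul_right k h
      rw [add_mul, one_mul] at this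
      rw [if_pos (by omega), if_neg (by omega), if_neg (by omega)]
    · rw [if_neg (by omega), if_pos (by omega), if_pos rfl]; ring
    · rcases (Nat.succ_le_of_lt h).eq_or_lt with rfl | h1
      · rw [Nat.succ_eq_add_one, add_mul, one_mul, if_neg (by omega), if_neg (by omega),
          if_pos (by omega), if_neg (by omega), if_pos rfl]
        omega
      · have : (j + 2) * k ≤ i * k := Nat.mul_le_mul_right k h1
        rw [add_mul] at this
        rw [if_neg (by omega), if_neg (by omega), if_neg (by omega), if_neg (by omega),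
          if_neg (by omega)]
  · have := a (perm x⁻¹ i)
    rw [perm_perm_inv] at this
    rw [← this, map_inv, perm_inv_perm]

theorem perm_cab_div {k : ℕ} (hk : 0 < k) (x : G) (t : ℕ) :
    perm (cab k x) t / k = perm x (t / k) := by
  conv_lhs => rw [← Nat.div_add_mod' t k]
  rw [perm_cab k x _ (Nat.mod_lt t hk), add_comm, Nat.add_mul_div_right _ _ hk,
    Nat.div_eq_of_lt (Nat.mod_lt t hk), zero_add]

/-- cabling permutes the blocks -/
theorem cab_sh (k : ℕ) (x : G) (i : ℕ) {y : G} (hy : y ∈ S 0 k) :
    cab k x * sh (i * k) y = sh (perm x i * k) y * cab k x := by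
  revert i
  refine SS_ind (C := fun x => ∀ i, cab k x * sh (i * k) y = sh (perm x i * k) y * cab k x)
    (by simp) (fun j _ i => ?_) (fun x y _ _ a b i => by
      rw [map_mul, perm_mul, mul_assoc, b, ← mul_assoc, a, mul_assoc])
    (fun x _ a i => ?_) (mem_top x)
  · rw [cab_σ, perm_σ_apply]
    split_ifs with h1 h2
    · rw [h1]
      refine nat_ext _ _ (fun t ht => ?_) hy
      rw [sh_σ, sh_σ, β_up (by omega) (by omega), add_mul, one_mul, add_assoc]
    · rw [h2]
      refine nat_ext _ _ (fun t ht => ?_) hy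
      rw [sh_σ, sh_σ, add_mul, one_mul, ← add_assoc, β_down (by omega) (by omega)]
    · rcases lt_or_gt_of_ne h1 with h | h
      · have : (i + 1) * k ≤ j * k := Nat.mul_le_mul_right k h
        rw [add_mul, one_mul] at this
        exact (S_comm (by omega) (sh_mem _ hy) (β_mem k k (j * k))).symm
      · have : (j + 2) * k ≤ i * k := Nat.mul_le_mul_right k (by omega)
        rw [add_mul] at this
        exact S_comm (by omega) (β_mem k k (j * k)) (sh_mem _ hy)
  · have := a (perm x⁻¹ i)
    rw [perm_perm_inv] at this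
    rw [map_inv, inv_mul_eq_iff_eq_mul, ← mul_assoc, this, mul_inv_cancel_right]

/-- the block number `i` -/
def Bk (k i : ℕ) : Set ℕ := {t | t / k = i}

/-- the blocks that meet `A` -/
def dv (k : ℕ) (A : Set ℕ) : Set ℕ := (fun t => t / k) '' A

theorem act_cab_Bk {k : ℕ} (hk : 0 < k) (x : G) (i : ℕ) :
    act (cab k x) (Bk k i) = Bk k (perm x i) := by
  ext t
  rw [mem_act, ← map_inv, Bk, Bk, Set.mem_ofPred_eq, Set.mem_ofPred_eq, perm_cab_div hk]
  exact ⟨fun h => by rw [← h, perm_perm_inv], fun h => by rw [h, perm_inv_perm]⟩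

theorem dv_act_cab {k : ℕ} (hk : 0 < k) (x : G) (A : Set ℕ) :
    dv k (act (cab k x) A) = act x (dv k A) := by
  rw [act_eq_image, act_eq_image, dv, dv, Set.image_image, Set.image_image]
  simp only [perm_cab_div hk]

theorem div_eq {k i t : ℕ} (h : i * k ≤ t) (h' : t < i * k + k) : t / k = i :=
  Nat.div_eq_of_lt_le h (by rwa [add_mul, one_mul])

theorem of_div_eq {k i t : ℕ} (hk : 0 < k) (h : t / k = i) : i * k ≤ t ∧ t < i * k + k := by
  have h1 := Nat.div_add_mod' t k
  have h2 := Nat.mod_lt t hk
  rw [h] at h1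
  omega

theorem del_cab_Bk {k : ℕ} (hk : 0 < k) (x : G) (i : ℕ) : del (Bk k i) (cab k x) = 1 := by
  refine cocy_ext (actP.comp (cab k)) (fun A => ∃ i, A = Bk k i) (fun _ => True)
    (fun A x => del A (cab k x)) (fun _ _ => 1)
    (fun A x y _ _ => by rw [map_mul, del_mul]; rfl) (by simp) ?_ ?_ (mem_top x) _ ⟨i, rfl⟩
  · rintro x _ _ ⟨i, rfl⟩
    exact ⟨_, act_cab_Bk hk x i⟩
  · rintro j _ _ ⟨i, rfl⟩
    rw [cab_σ, del_β]
    by_cases h : i = j
    · rw [rk_none (A := Bk k i) (a := j * k + k) k fun t h1 _ h3 => by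
        have := of_div_eq hk h3; rw [h] at this; omega, Nat.sub_self, β]
    · rw [rk_none (A := Bk k i) (a := j * k) k fun t h1 h2 h3 =>
        h (Eq.trans (Eq.symm h3) (div_eq h1 h2)), Nat.sub_self, β_zero]

theorem rk_block {k : ℕ} (hk : 0 < k) {A : Set ℕ} (hA : Set.InjOn (fun t => t / k) A) (j : ℕ) :
    rk A (j * k + k) = rk A (j * k) + if j ∈ dv k A then 1 else 0 := by
  split_ifs with h
  · obtain ⟨u, hu, e⟩ := h
    obtain ⟨h1, h2⟩ := of_div_eq hk e
    obtain ⟨d, rfl⟩ := Nat.exists_eq_add_of_le h1
    obtain ⟨c, hc⟩ : ∃ c, k = d + 1 + c := ⟨k - (d + 1), by omega⟩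
    have n : ∀ t, j * k ≤ t → t < j * k + k → t ≠ j * k + d → t ∉ A := fun t a b c h =>
      c (hA h hu ((div_eq a b).trans e.symm))
    rw [show j * k + k = j * k + d + 1 + c by omega,
      rk_none c fun t a b => n t (by omega) (by omega) (by omega), rk_mem hu,
      rk_none d fun t a b => n t a (by omega) (by omega)]
  · rw [add_zero, rk_none k fun t a b c => h ⟨t, c, div_eq a b⟩]

theorem rk_dv {k : ℕ} (hk : 0 < k) {A : Set ℕ} (hA : Set.InjOn (fun t => t / k) A) (j : ℕ) :
    rk A (j * k) = rk (dv k A) j := by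
  induction j with
  | zero => simp
  | succ j ih => rw [add_mul, one_mul, rk_block hk hA, ih, rk_succ]

theorem del_cab {k : ℕ} (hk : 0 < k) (x : G) {A : Set ℕ} (hA : Set.InjOn (fun t => t / k) A) :
    del A (cab k x) = del (dv k A) x := by
  refine cocy_ext (actP.comp (cab k)) (fun A => Set.InjOn (fun t => t / k) A) (fun _ => True)
    (fun A x => del A (cab k x)) (fun A x => del (dv k A) x)
    (fun A x y _ _ => by rw [map_mul, del_mul]; rfl)
    (fun A x y _ _ => by rw [del_mul, ← dv_act_cab hk]; rfl) ?_ ?_ (mem_top x) _ hA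
  · intro x _ A hA u hu v hv e
    refine (perm (cab k x)⁻¹).injective (hA hu hv ?_)
    have e' : u / k = v / k := e
    simp only [← map_inv, perm_cab_div hk, e']
  · intro j _ A hA
    have e := rk_block hk hA (j + 1)
    rw [add_mul, one_mul] at e
    rw [cab_σ, del_β, del_σ, e, rk_block hk hA j, rk_dv hk hA, Nat.add_sub_cancel_left,
      Nat.add_sub_cancel_left]
    by_cases h1 : j ∈ dv k A <;> by_cases h2 : j + 1 ∈ dv k A <;> simp [h1, h2, β, up, β_zero]

end Pool.Agent.MP_a9a3e0_al
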