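import Mathlib

/-! The Artin braid group on `n` strands, by its standard presentation. -/

set_option autoImplicit false

namespace Pool.Agent.MP_a9a3e0_al

/-- the Artin relators on the generators `σ_0, …, σ_{n-2}` -/
def rels (n : ℕ) : Set (FreeGroup (Fin (n - 1))) :=
  {r | (∃ i j : Fin (n - 1), i.val + 2 ≤ j.val ∧
        r = FreeGroup.of i * FreeGroup.of j * (FreeGroup.of j * FreeGroup.of i)⁻¹) ∨
      (∃ i j : Fin (n - 1), i.val + 1 = j.val ∧
        r = FreeGroup.of i * FreeGroup.of j * FreeGroup.of i *
          (FreeGroup.of j * FreeGroup.of i * FreeGroup.of j)⁻¹)}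

/-- the braid group `B_n` -/
abbrev Braid (n : ℕ) : Type := PresentedGroup (rels n)

end Pool.Agent.MP_a9a3e0_al
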