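import Pool.Agent.MP_a9a3e0_al.Basic

/-! Deleting strands: the cocycle `del A x` keeps the strands that start in `A`. -/

set_option autoImplicit false

noncomputable section

namespace Pool.Agent.MP_a9a3e0_al

open Equiv Classical

/-- permutations of `X` with labels in `Γ` -/
@[ext] structure Wr (X Γ : Type) where
  p : Perm X
  c : X → Γ

instance {X Γ : Type} [Group Γ] : Group (Wr X Γ) where
  mul a b := ⟨a.p * b.p, fun A => a.c (b.p A) * b.c A⟩
  one := ⟨1, fun _ => 1⟩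
  inv a := ⟨a.p⁻¹, fun A => (a.c (a.p⁻¹ A))⁻¹⟩
  mul_assoc a b c := Wr.ext (mul_assoc _ _ _) (funext fun _ => mul_assoc _ _ _)
  one_mul a := Wr.ext (one_mul _) (funext fun _ => one_mul _)
  mul_one a := Wr.ext (mul_one _) (funext fun _ => mul_one _)
  inv_mul_cancel a := Wr.ext (inv_mul_cancel _) (funext fun A => by
    show (a.c (a.p⁻¹ (a.p A)))⁻¹ * a.c A = 1
    simp)

theorem Wr.mul_p {X Γ : Type} [Group Γ] (a b : Wr X Γ) : (a * b).p = a.p * b.p := rfl

theorem Wr.mul_c {X Γ : Type} [Group Γ] (a b : Wr X Γ) (A : X) :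
    (a * b).c A = a.c (b.p A) * b.c A := rfl

def Wr.fst (X Γ : Type) [Group Γ] : Wr X Γ →* Perm X where
  toFun a := a.p
  map_one' := rfl
  map_mul' _ _ := rfl

/-- the image of a set of strands -/
def act (x : G) (A : Set ℕ) : Set ℕ := {t | perm x⁻¹ t ∈ A}

theorem mem_act {x : G} {A : Set ℕ} {t : ℕ} : t ∈ act x A ↔ perm x⁻¹ t ∈ A := Iff.rfl

theorem perm_mem_act {x : G} {A : Set ℕ} {t : ℕ} : perm x t ∈ act x A ↔ t ∈ A := by
  rw [mem_act, perm_inv_perm]

theorem act_mul (x y : G) (A : Set ℕ) : act (x * y) A = act x (act y A) := by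
  ext t; simp only [mem_act, mul_inv_rev, perm_mul]

@[simp] theorem act_one (A : Set ℕ) : act 1 A = A := by
  ext t; simp [mem_act]

@[simp] theorem act_inv_act (x : G) (A : Set ℕ) : act x⁻¹ (act x A) = A := by
  rw [← act_mul, inv_mul_cancel, act_one]

@[simp] theorem act_act_inv (x : G) (A : Set ℕ) : act x (act x⁻¹ A) = A := by
  rw [← act_mul, mul_inv_cancel, act_one]

theorem act_eq_image (x : G) (A : Set ℕ) : act x A = perm x '' A := by
  ext t
  exact ⟨fun h => ⟨_, h, perm_perm_inv x t⟩, by rintro ⟨u, hu, rfl⟩; exact perm_mem_act.2 hu⟩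

theorem act_pair (x : G) (u v : ℕ) : act x {u, v} = {perm x u, perm x v} := by
  rw [act_eq_image, Set.image_pair]

theorem mem_act_σ {j t : ℕ} {A : Set ℕ} :
    t ∈ act (σ j) A ↔ (if t = j then j + 1 else if t = j + 1 then j else t) ∈ A := by
  rw [mem_act, perm_σ_inv, perm_σ_apply]

theorem act_of_perm {x : G} (h : perm x = 1) (A : Set ℕ) : act x A = A := by
  ext t; rw [mem_act, map_inv, h]; rfl

/-- a set that no generator cuts is invariant -/
theorem act_inv {p : ℕ → Prop} {A : Set ℕ} (h : ∀ t, p t → (t ∈ A ↔ t + 1 ∈ A)) {x : G}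
    (hx : x ∈ SS p) : act x A = A := by
  ext t
  have := perm_pres (fun u => u ∈ A) (fun t ht => propext (h t ht)) (inv_mem hx) t
  rw [mem_act, this]

def actP : G →* Perm (Set ℕ) where
  toFun x := ⟨act x, act x⁻¹, act_inv_act x, act_act_inv x⟩
  map_one' := by ext1 A; exact act_one A
  map_mul' x y := by ext1 A; exact act_mul x y A

/-- number of elements of `A` below `t` -/
def rk (A : Set ℕ) (t : ℕ) : ℕ := Nat.count (· ∈ A) t

@[simp] theorem rk_zero (A : Set ℕ) : rk A 0 = 0 := Nat.count_zero _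

theorem rk_succ (A : Set ℕ) (t : ℕ) : rk A (t + 1) = rk A t + if t ∈ A then 1 else 0 :=
  Nat.count_succ _ _

theorem rk_mem {A : Set ℕ} {t : ℕ} (h : t ∈ A) : rk A (t + 1) = rk A t + 1 := by
  rw [rk_succ, if_pos h]

theorem rk_not {A : Set ℕ} {t : ℕ} (h : t ∉ A) : rk A (t + 1) = rk A t := by
  rw [rk_succ, if_neg h, add_zero]

theorem rk_mono (A : Set ℕ) {t u : ℕ} (h : t ≤ u) : rk A t ≤ rk A u := Nat.count_monotone _ h

theorem rk_le (A : Set ℕ) (t : ℕ) : rk A t ≤ t := Nat.count_le _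

theorem rk_full {A : Set ℕ} {a : ℕ} (d : ℕ) (h : ∀ t, a ≤ t → t < a + d → t ∈ A) :
    rk A (a + d) = rk A a + d := by
  induction d with
  | zero => rfl
  | succ d ih =>
    rw [← add_assoc, rk_mem (h _ (by omega) (by omega)), ih fun t h1 h2 => h t h1 (by omega),
      add_assoc]

theorem rk_none {A : Set ℕ} {a : ℕ} (d : ℕ) (h : ∀ t, a ≤ t → t < a + d → t ∉ A) :
    rk A (a + d) = rk A a := by
  induction d with
  | zero => rfl
  | succ d ih =>
    rw [← add_assoc, rk_not (h _ (by omega) (by omega)), ih fun t h1 h2 => h t h1 (by omega)]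

theorem rk_σ (A : Set ℕ) (j : ℕ) {t : ℕ} (h : t ≠ j + 1) : rk (act (σ j) A) t = rk A t := by
  have h1 : ∀ t, t ≤ j → rk (act (σ j) A) t = rk A t := fun t ht => by
    induction t with
    | zero => simp
    | succ t ih =>
      rw [rk_succ, rk_succ, ih (by omega), mem_act_σ, if_neg (by omega : t ≠ j),
        if_neg (by omega : t ≠ j + 1)]
  rcases le_or_gt t j with h2 | h2
  · exact h1 t h2
  obtain ⟨d, rfl⟩ : ∃ d, t = j + 2 + d := ⟨t - (j + 2), by omega⟩
  clear h h2
  induction d with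
  | zero =>
    rw [add_zero, rk_succ, rk_succ, rk_succ, rk_succ, h1 j le_rfl, mem_act_σ, mem_act_σ,
      if_pos rfl, if_neg (by omega : j + 1 ≠ j), if_pos rfl]
    omega
  | succ d ih =>
    rw [← add_assoc, rk_succ, rk_succ, ih, mem_act_σ, if_neg (by omega : j + 2 + d ≠ j),
      if_neg (by omega : j + 2 + d ≠ j + 1)]

theorem rk_act {a b : ℕ} {x : G} (hx : x ∈ S a b) {t : ℕ} (ht : t ≤ a ∨ b ≤ t) (A : Set ℕ) :
    rk (act x A) t = rk A t := by
  revert A
  exact SS_ind (C := fun x => ∀ A, rk (act x A) t = rk A t) (by simp)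
    (fun j hj A => rk_σ A j (by omega)) (fun x y _ _ a b A => by rw [act_mul, a, b])
    (fun x _ a A => by rw [← a (act x⁻¹ A), act_act_inv]) hx

/-- generators in a target group, valid up to the ranks in `Q` -/
structure Dat (Γ : Type) [Group Γ] where
  τ : ℕ → Γ
  Q : ℕ → Prop
  down : ∀ r r', r ≤ r' → Q r' → Q r
  comm : ∀ r r', r + 2 ≤ r' → τ r * τ r' = τ r' * τ r
  br : ∀ r, Q (r + 3) → τ r * τ (r + 1) * τ r = τ (r + 1) * τ r * τ (r + 1)

namespace Dat

variable {Γ : Type} [Group Γ] (d : Dat Γ)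

def ok (A : Set ℕ) : Prop := ∀ t, d.Q (rk A t)

theorem ok_σ {A : Set ℕ} (j : ℕ) (h : d.ok A) : d.ok (act (σ j) A) := fun t => by
  by_cases ht : t = j + 1
  · refine d.down _ _ (rk_mono _ (Nat.le_succ t)) ?_
    rw [rk_σ A j (by omega)]; exact h _
  · rw [rk_σ A j ht]; exact h _

theorem ok_σ_iff {A : Set ℕ} (j : ℕ) : d.ok (act (σ j) A) ↔ d.ok A := by
  refine ⟨fun h => ?_, d.ok_σ j⟩
  have h1 := d.ok_σ j h
  rwa [← act_mul, act_of_perm (by rw [map_mul, perm_σ, swap_mul_self])] at h1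

def fac (A : Set ℕ) (j : ℕ) : Γ := if j ∈ A ∧ j + 1 ∈ A ∧ d.ok A then d.τ (rk A j) else 1

theorem fac_far (A : Set ℕ) {i j : ℕ} (h : i + 2 ≤ j ∨ j + 2 ≤ i) :
    d.fac (act (σ j) A) i = d.fac A i := by
  unfold fac
  rw [ok_σ_iff, mem_act_σ, mem_act_σ, rk_σ A j (by omega), if_neg (by omega : i ≠ j),
    if_neg (by omega : i ≠ j + 1), if_neg (by omega : i + 1 ≠ j), if_neg (by omega : i + 1 ≠ j + 1)]

theorem fac_comm (A : Set ℕ) {i j : ℕ} (h : i + 2 ≤ j) :
    d.fac A i * d.fac A j = d.fac A j * d.fac A i := by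
  unfold fac
  split_ifs with h1 h2
  · refine d.comm _ _ (le_trans ?_ (rk_mono A h))
    rw [rk_mem h1.2.1, rk_mem h1.1]
  all_goals simp

theorem fac_br (A : Set ℕ) (j : ℕ) :
    d.fac (act (σ (j + 1)) (act (σ j) A)) j * d.fac (act (σ j) A) (j + 1) * d.fac A j =
      d.fac (act (σ j) (act (σ (j + 1)) A)) (j + 1) * d.fac (act (σ (j + 1)) A) j *
        d.fac A (j + 1) := by
  have e1 : rk (act (σ (j + 1)) (act (σ j) A)) j = rk A j := by
    rw [rk_σ _ _ (by omega), rk_σ _ _ (by omega)]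
  have e2 : rk (act (σ j) A) (j + 1) = rk A j + if j + 1 ∈ A then 1 else 0 := by
    rw [rk_succ, rk_σ _ _ (by omega), mem_act_σ, if_pos rfl]
  have e3 : rk (act (σ j) (act (σ (j + 1)) A)) (j + 1) =
      rk A j + if j + 1 + 1 ∈ A then 1 else 0 := by
    rw [rk_succ, rk_σ _ _ (by omega), rk_σ _ _ (by omega), mem_act_σ, if_pos rfl, mem_act_σ,
      if_pos rfl]
  have e4 : rk (act (σ (j + 1)) A) j = rk A j := rk_σ _ _ (by omega)
  have n1 : j + 1 ≠ j := by omega
  have n2 : j + 1 + 1 ≠ j := by omega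
  have n3 : j + 1 + 1 ≠ j + 1 := by omega
  unfold fac
  rw [e1, e2, e3, e4, rk_succ A j]
  simp only [ok_σ_iff, mem_act_σ, n1, n2, n3, n1.symm, n2.symm, n3.symm, if_true, if_false]
  by_cases h0 : d.ok A
  · by_cases h1 : j ∈ A <;> by_cases h2 : j + 1 ∈ A <;> by_cases h3 : j + 1 + 1 ∈ A <;>
      simp only [h0, h1, h2, h3, and_true, and_false, and_self, if_true, if_false,
        mul_one, one_mul, add_zero]
    refine d.br _ ?_
    have := h0 (j + 1 + 1 + 1)
    rwa [rk_mem h3, rk_mem h2, rk_mem h1] at this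
  · simp [h0]

def Ψ : G →* Wr (Set ℕ) Γ :=
  liftG (fun j => ⟨actP (σ j), fun A => d.fac A j⟩)
    (fun i j h => Wr.ext (by simp only [Wr.mul_p, ← map_mul, σ_comm h]) (funext fun A => by
      show d.fac (act (σ j) A) i * d.fac A j = d.fac (act (σ i) A) j * d.fac A i
      rw [d.fac_far A (Or.inl h), d.fac_far A (Or.inr h), d.fac_comm A h]))
    (fun i => Wr.ext (by simp only [Wr.mul_p, ← map_mul, σ_braid i]) (funext fun A =>
      d.fac_br A i))

theorem Ψ_p (x : G) : (d.Ψ x).p = actP x := by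
  have : (Wr.fst _ _).comp d.Ψ = actP := G_ext fun i => by
    rw [MonoidHom.comp_apply, Ψ, liftG_σ]; rfl
  rw [← this]; rfl

/-- the braid formed by the strands that start in `A` -/
def D (A : Set ℕ) (x : G) : Γ := (d.Ψ x).c A

theorem D_σ (A : Set ℕ) (j : ℕ) : d.D A (σ j) = d.fac A j := by
  unfold D Ψ; rw [liftG_σ]

theorem D_mul (A : Set ℕ) (x y : G) : d.D A (x * y) = d.D (act y A) x * d.D A y := by
  unfold D; rw [map_mul, Wr.mul_c, Ψ_p]; rfl

end Dat

/-- two cocycles that agree on generators agree, over an invariant family -/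
theorem cocy_ext {X Γ : Type} [Group Γ] (a : G →* Perm X) (F : X → Prop) (p : ℕ → Prop)
    (c₁ c₂ : X → G → Γ) (h₁ : ∀ A x y, F A → y ∈ SS p → c₁ A (x * y) = c₁ (a y A) x * c₁ A y)
    (h₂ : ∀ A x y, F A → y ∈ SS p → c₂ A (x * y) = c₂ (a y A) x * c₂ A y)
    (hF : ∀ x ∈ SS p, ∀ A, F A → F (a x A))
    (hg : ∀ t, p t → ∀ A, F A → c₁ A (σ t) = c₂ A (σ t)) {x : G} (hx : x ∈ SS p) (A : X)
    (hA : F A) : c₁ A x = c₂ A x := by
  have o : ∀ c : X → G → Γ, (∀ A x y, F A → y ∈ SS p → c A (x * y) = c (a y A) x * c A y) →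
      ∀ A, F A → c A 1 = 1 := fun c h A hA => by
    have := h A 1 1 hA (one_mem _)
    simpa using this
  revert A
  refine SS_ind (C := fun x => ∀ A, F A → c₁ A x = c₂ A x)
    (fun A hA => by rw [o c₁ h₁ A hA, o c₂ h₂ A hA]) hg (fun x y _ hy u v A hA => ?_)
    (fun x hx u A hA => ?_) hx
  · rw [h₁ A x y hA hy, h₂ A x y hA hy, u _ (hF y hy A hA), v A hA]
  · have e1 := h₁ A x x⁻¹ hA (inv_mem hx)
    have e2 := h₂ A x x⁻¹ hA (inv_mem hx)
    rw [mul_inv_cancel, o c₁ h₁ A hA, u _ (hF _ (inv_mem hx) A hA)] at e1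
    rw [mul_inv_cancel, o c₂ h₂ A hA] at e2
    exact mul_left_cancel (e1.symm.trans e2)

def datG : Dat G := ⟨σ, fun _ => True, fun _ _ _ _ => trivial, fun _ _ => σ_comm,
  fun r _ => σ_braid r⟩

def datB (m : ℕ) : Dat (Braid m) := ⟨bg m, fun r => r ≤ m, fun _ _ => le_trans,
  fun _ _ => bg_comm m, fun _ h => bg_braid m h⟩

def del (A : Set ℕ) (x : G) : G := datG.D A x

theorem del_mul (A : Set ℕ) (x y : G) : del A (x * y) = del (act y A) x * del A y :=
  datG.D_mul A x y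

theorem del_σ (A : Set ℕ) (j : ℕ) :
    del A (σ j) = if j ∈ A ∧ j + 1 ∈ A then σ (rk A j) else 1 := by
  unfold del
  rw [Dat.D_σ, Dat.fac]
  have : datG.ok A := fun _ => trivial
  simp only [this, and_true]; rfl

@[simp] theorem del_one (A : Set ℕ) : del A 1 = 1 := by
  have := del_mul A 1 1
  simpa using this

theorem del_inv (A : Set ℕ) (x : G) : del A x⁻¹ = (del (act x⁻¹ A) x)⁻¹ := by
  have := del_mul A x x⁻¹
  rw [mul_inv_cancel, del_one] at this
  exact eq_inv_of_mul_eq_one_right this.symm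

theorem del_conj {A : Set ℕ} {w : G} (h : act w A = A) (s : G) :
    del (act s A) (s * w * s⁻¹) = del A s * del A w * (del A s)⁻¹ := by
  rw [del_mul, del_mul, del_inv, act_inv_act, h]

theorem del_pow {A : Set ℕ} {w : G} (h : act w A = A) (N : ℕ) :
    act (w ^ N) A = A ∧ del A (w ^ N) = del A w ^ N := by
  induction N with
  | zero => simp
  | succ N ih => rw [pow_succ, act_mul, del_mul, h, ih.2, pow_succ]; exact ⟨ih.1, rfl⟩

theorem ok_act {Γ : Type} [Group Γ] (d : Dat Γ) (x : G) (A : Set ℕ) : d.ok (act x A) ↔ d.ok A := by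
  revert A
  exact SS_ind (C := fun x => ∀ A, d.ok (act x A) ↔ d.ok A) (by simp)
    (fun j _ A => d.ok_σ_iff j) (fun x y _ _ a b A => by rw [act_mul, a, b])
    (fun x _ a A => by rw [← a (act x⁻¹ A), act_act_inv]) (mem_top x)

theorem ι_D (m : ℕ) (x : G) {A : Set ℕ} (hA : ∀ t, rk A t ≤ m) :
    ι m ((datB m).D A x) = del A x := by
  refine cocy_ext actP (datB m).ok (fun _ => True) (fun A x => ι m ((datB m).D A x)) del
    (fun A x y _ _ => by rw [Dat.D_mul, map_mul]; rfl) (fun A x y _ _ => del_mul A x y)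
    (fun x _ A h => (ok_act _ x A).2 h) (fun j _ A h => ?_) (mem_top x) A hA
  rw [Dat.D_σ, del_σ, Dat.fac]
  simp only [h, and_true]
  split_ifs with h1
  · refine ι_bg ?_
    have : rk A (j + 1 + 1) ≤ m := h _
    rw [rk_mem h1.2, rk_mem h1.1] at this
    omega
  · exact map_one _

theorem del_mem {m : ℕ} (x : G) {A : Set ℕ} (hA : ∀ t, rk A t ≤ m) : del A x ∈ S 0 m := by
  rw [← ι_D m x hA]; exact ι_mem m _

/-- strands in different classes of `f` do not meet -/
theorem del_sep {Y : Type} (f : ℕ → Y) {p : ℕ → Prop} (h : ∀ t, p t → f t = f (t + 1)) {x : G}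
    (hx : x ∈ SS p) {A : Set ℕ} (hA : Set.InjOn f A) : del A x = 1 := by
  refine cocy_ext actP (fun A => Set.InjOn f A) p del (fun _ _ => 1)
    (fun A x y _ _ => del_mul A x y) (by simp) (fun x hx A hA u hu v hv e => ?_)
    (fun j hj A hA => ?_) hx A hA
  · have e1 := perm_pres f h (inv_mem hx) u
    have e2 := perm_pres f h (inv_mem hx) v
    exact (perm x⁻¹).injective (hA hu hv (by rw [e1, e2, e]))
  · rw [del_σ, if_neg]
    rintro ⟨h1, h2⟩
    have := hA h1 h2 (h j hj)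
    omega

/-- generators that avoid `A` -/
theorem del_out {p : ℕ → Prop} {A : Set ℕ} (h : ∀ t, p t → t ∉ A ∧ t + 1 ∉ A) {x : G}
    (hx : x ∈ SS p) : del A x = 1 :=
  del_sep (fun t => if t ∈ A then t + 1 else 0)
    (fun t ht => by rw [if_neg (h t ht).1, if_neg (h t ht).2]) hx
    (fun u hu v hv e => by simpa [hu, hv] using e)

/-- an interval of strands at the bottom of `A` -/
theorem del_sh {a k : ℕ} {A : Set ℕ} (hA : ∀ t, a ≤ t → t < a + k → t ∈ A) (h0 : rk A a = 0)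
    {w : G} (hw : w ∈ S 0 k) : del A (sh a w) = w := by
  have hs : ∀ x ∈ S 0 k, act (sh a x) A = A := fun x hx =>
    act_inv (fun t ht => iff_of_true (hA t (by omega) (by omega)) (hA _ (by omega) (by omega)))
      (sh_mem a hx)
  refine cocy_ext (actP.comp (sh a)) (fun B => B = A) _ (fun B x => del B (sh a x)) (fun _ x => x)
    (fun B x y _ _ => by rw [map_mul, del_mul]; rfl) (by simp)
    (fun x hx B hB => by rw [hB]; exact hs x hx) (fun j hj B hB => ?_) hw A rfl
  rw [hB, sh_σ, del_σ, if_pos ⟨hA _ (by omega) (by omega), hA _ (by omega) (by omega)⟩, add_comm,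
    rk_full j fun t h1 h2 => hA t h1 (by omega), h0, zero_add]

theorem del_low {k : ℕ} {A : Set ℕ} (hA : ∀ t, t < k → t ∈ A) {w : G} (hw : w ∈ S 0 k) :
    del A w = w := by
  have := del_sh (a := 0) (fun t _ h => hA t (by omega)) (rk_zero A) hw
  rwa [sh_zero] at this

theorem rk_Iio (m t : ℕ) : rk (Set.Iio m) t ≤ m := by
  rcases le_total t m with h | h
  · exact (rk_le _ _).trans h
  · obtain ⟨d, rfl⟩ := Nat.exists_eq_add_of_le h
    rw [rk_none (A := Set.Iio m) d fun t h1 _ h2 => absurd h2 (not_lt.2 h1)]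
    exact rk_le _ _

theorem act_Iio {m : ℕ} {x : G} (hx : x ∈ S 0 m) : act x (Set.Iio m) = Set.Iio m :=
  act_inv (fun t ht => by simp only [Set.mem_Iio]; omega) hx

/-- the inverse of `ι m` on its image -/
def rho (m : ℕ) : S 0 m →* Braid m :=
  MonoidHom.mk' (fun x => (datB m).D (Set.Iio m) x) fun x y => by
    rw [Subgroup.coe_mul, Dat.D_mul, act_Iio y.2]

theorem ι_rho (m : ℕ) (x : S 0 m) : ι m (rho m x) = x := by
  show ι m ((datB m).D (Set.Iio m) x) = x
  rw [ι_D m _ (rk_Iio m), del_low (A := Set.Iio m) (fun _ h => h) x.2]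

theorem rho_σ {m r : ℕ} (h : r + 1 < m) : rho m ⟨σ r, σ_mem (Nat.zero_le _) h⟩ = bg m r := by
  show (datB m).D (Set.Iio m) (σ r) = _
  rw [Dat.D_σ, Dat.fac, if_pos ⟨by simp only [Set.mem_Iio]; omega, h, rk_Iio m⟩]
  have := rk_full (A := Set.Iio m) (a := 0) r fun t _ h2 => by simp only [Set.mem_Iio]; omega
  rw [zero_add, rk_zero, zero_add] at this
  rw [this]; rfl

theorem rho_ι (m : ℕ) (y : Braid m) : rho m ⟨ι m y, ι_mem m y⟩ = y := by
  have : (rho m).comp ((ι m).codRestrict (S 0 m) (ι_mem m)) = MonoidHom.id _ :=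
    PresentedGroup.ext fun i => by
      have h : i.val + 1 < m := by have := i.2; omega
      have e : (ι m).codRestrict (S 0 m) (ι_mem m) (PresentedGroup.of i) =
          ⟨σ i, σ_mem (Nat.zero_le _) h⟩ := Subtype.ext (ι_of m i)
      rw [MonoidHom.comp_apply, e, rho_σ h, bg, dif_pos h]; rfl
  exact DFunLike.congr_fun this y

theorem ι_injective (m : ℕ) : Function.Injective (ι m) := fun x y h => by
  rw [← rho_ι m x, ← rho_ι m y]; congr 2

end Pool.Agent.MP_a9a3e0_al
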