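import Pool.Agent.MP_a9a3e0_al.Base

/-! The degree argument and the assembly. -/

set_option autoImplicit false

noncomputable section

namespace Pool.Agent.MP_a9a3e0_al

open Classical
open scoped commutatorElement

theorem exists_F {n : ℕ} (hn : 4 ≤ n) : ∃ k, 8 * k = n.factorial ∧ ∃ F : Ev n →* S 0 k,
    NoSwap F ∧ (5 ≤ n → Function.Injective F) := by
  induction n, hn using Nat.le_induction with
  | base => exact ⟨3, rfl, F0, F0_noSwap, fun h => absurd h (by omega)⟩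
  | succ n hn ih =>
    obtain ⟨k, hk, F, hF, -⟩ := ih
    have h0 : 0 < k := by have := n.factorial_pos; omega
    exact ⟨(n + 1) * k, by rw [Nat.factorial_succ, ← hk]; ring, step (by omega) F,
      step_noSwap hn h0 hF, fun _ => step_injective _ F h0⟩

/-- modulo a subgroup that identifies the generators every braid is a power of `σ 0` -/
theorem mem_of_dg {n : ℕ} (K : Subgroup G)
    (hK : ∀ x ∈ K, σ 0 * x * (σ 0)⁻¹ ∈ K ∧ (σ 0)⁻¹ * x * σ 0 ∈ K)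
    (h : ∀ t, t + 2 < n → σ (t + 1) * (σ t)⁻¹ ∈ K) {x : G} (hx : x ∈ S 0 n) (h0 : dg x = 0) :
    x ∈ K := by
  have hz : ∀ (d : ℤ), ∀ x ∈ K, σ 0 ^ d * x * σ 0 ^ (-d) ∈ K := fun d => by
    induction d using Int.induction_on with
    | zero => simp
    | succ d ih =>
      intro x hx
      have e : σ 0 ^ ((d : ℤ) + 1) * x * σ 0 ^ (-((d : ℤ) + 1)) =
        σ 0 * (σ 0 ^ (d : ℤ) * x * σ 0 ^ (-(d : ℤ))) * (σ 0)⁻¹ := by group
      rw [e]; exact (hK _ (ih x hx)).1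
    | pred d ih =>
      intro x hx
      have e : σ 0 ^ (-(d : ℤ) - 1) * x * σ 0 ^ (-(-(d : ℤ) - 1)) =
        (σ 0)⁻¹ * (σ 0 ^ (-(d : ℤ)) * x * σ 0 ^ (-(-(d : ℤ)))) * σ 0 := by group
      rw [e]; exact (hK _ (ih x hx)).2
  have hg : ∀ t, t + 1 < n → σ t * (σ 0)⁻¹ ∈ K := fun t ht => by
    induction t with
    | zero => simp
    | succ t ih =>
      have e : σ (t + 1) * (σ 0)⁻¹ = σ (t + 1) * (σ t)⁻¹ * (σ t * (σ 0)⁻¹) := by group
      rw [e]; exact mul_mem (h t ht) (ih (by omega))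
  have key : x * σ 0 ^ (-dg x) ∈ K :=
    SS_ind (C := fun x => x * σ 0 ^ (-dg x) ∈ K) (by simp)
      (fun t ht => by rw [dg_σ, zpow_neg_one]; exact hg t ht.2)
      (fun x y _ _ a b => by
        have e : x * y * σ 0 ^ (-dg (x * y)) =
            x * σ 0 ^ (-dg x) * (σ 0 ^ dg x * (y * σ 0 ^ (-dg y)) * σ 0 ^ (-dg x)) := by
          rw [dg_mul]; group
        rw [e]; exact mul_mem a (hz _ _ b))
      (fun x _ a => by
        have e : x⁻¹ * σ 0 ^ (-dg x⁻¹) =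
            σ 0 ^ (-dg x) * (x * σ 0 ^ (-dg x))⁻¹ * σ 0 ^ (- -dg x) := by
          rw [dg_inv]; group
        rw [e]; exact hz _ _ (inv_mem a)) hx
  simpa [h0] using key

theorem mem_comm {n : ℕ} (hn : 2 ≤ n) {x : G} (hx : x ∈ S 0 n) (h0 : dg x = 0) :
    ∃ y ∈ commutator (Braid n), ι n y = x := by
  have e0 : ι n (bg n 0) = σ 0 := ι_bg (by omega)
  refine mem_of_dg ((commutator (Braid n)).map (ι n)) ?_ (fun t ht => ?_) hx h0
  · rintro _ ⟨y, hy, rfl⟩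
    have hN : (commutator (Braid n)).Normal := inferInstance
    exact ⟨⟨_, hN.conj_mem y hy (bg n 0), by simp [e0]⟩,
      ⟨_, hN.conj_mem y hy (bg n 0)⁻¹, by simp [e0]⟩⟩
  · refine ⟨⁅bg n t * bg n (t + 1), bg n t⁆, Subgroup.commutator_mem_commutator
      (Subgroup.mem_top _) (Subgroup.mem_top _), ?_⟩
    rw [commutatorElement_def, bg_braid n ht]
    simp only [map_mul, map_inv, ι_bg (show t + 1 < n by omega), ι_bg (show t + 1 + 1 < n from ht)]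
    group

theorem add_zero_of_dg {n : ℕ} (hn : 2 ≤ n) (d : G → ℤ)
    (hd : ∀ x ∈ Ev n, ∀ y ∈ Ev n, d (x * y) = d x + d y) {x : G} (hx : x ∈ S 0 n)
    (h0 : dg x = 0) : d x = 0 := by
  have d1 : d 1 = 0 := by
    have := hd 1 (one_mem _) 1 (one_mem _)
    rw [mul_one] at this; omega
  have di : ∀ x ∈ Ev n, d x⁻¹ = -d x := fun x hx => by
    have := hd x hx _ (inv_mem hx)
    rw [mul_inv_cancel] at this; omega
  have dc : ∀ e ∈ Ev n, ∀ x ∈ Ev n, d (e * x * e⁻¹) = d x := fun e he x hx => by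
    rw [hd _ (mul_mem he hx) _ (inv_mem he), hd e he x hx, di e he]; omega
  have s0 : σ 0 ∈ S 0 n := σ_mem le_rfl (by omega)
  have cj : ∀ g ∈ S 0 n, ∀ x ∈ Ev n, g * x * g⁻¹ ∈ Ev n := fun g hg x hx =>
    ⟨mul_mem (mul_mem hg hx.1) (inv_mem hg), by have := hx.2; simpa using this⟩
  have two : ∀ p ∈ S 0 n, ∀ q ∈ S 0 n, (dg p + dg q) % 2 = 0 → p * q ∈ Ev n :=
    fun p hp q hq h => ⟨mul_mem hp hq, by rwa [dg_mul]⟩
  let K : Subgroup G :=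
    { carrier := {x | x ∈ Ev n ∧ d x = 0 ∧ d (σ 0 * x * (σ 0)⁻¹) = 0}
      one_mem' := ⟨one_mem _, d1, by simpa using d1⟩
      mul_mem' := fun {x y} a b => ⟨mul_mem a.1 b.1, by rw [hd x a.1 y b.1, a.2.1, b.2.1]; rfl, by
        rw [← conj_mul, hd _ (cj _ s0 x a.1) _ (cj _ s0 y b.1), a.2.2, b.2.2]; rfl⟩
      inv_mem' := fun {x} a => ⟨inv_mem a.1, by rw [di x a.1, a.2.1]; rfl, by
        rw [← conj_inv, di _ (cj _ s0 x a.1), a.2.2]; rfl⟩ }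
  have q0 : σ 0 * σ 0 ∈ Ev n := two _ s0 _ s0 (by simp)
  refine (mem_of_dg K (fun x a => ⟨⟨cj _ s0 x a.1, a.2.2, ?_⟩, ⟨?_, ?_, ?_⟩⟩) (fun t ht => ?_)
    hx h0).2.1
  · rw [show σ 0 * (σ 0 * x * (σ 0)⁻¹) * (σ 0)⁻¹ = σ 0 * σ 0 * x * (σ 0 * σ 0)⁻¹ by group,
      dc _ q0 x a.1, a.2.1]
  · simpa using cj _ (inv_mem s0) x a.1
  · rw [show (σ 0)⁻¹ * x * σ 0 = (σ 0 * σ 0)⁻¹ * (σ 0 * x * (σ 0)⁻¹) * (σ 0 * σ 0)⁻¹⁻¹ by group,
      dc _ (inv_mem q0) _ (cj _ s0 x a.1), a.2.2]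
  · rw [show σ 0 * ((σ 0)⁻¹ * x * σ 0) * (σ 0)⁻¹ = x by group, a.2.1]
  · have hp : σ t ∈ S 0 n := σ_mem (Nat.zero_le _) (by omega)
    have hq : σ (t + 1) ∈ S 0 n := σ_mem (Nat.zero_le _) ht
    have hu : (σ t)⁻¹ * σ (t + 1) ∈ Ev n := two _ (inv_mem hp) _ hq (by simp)
    have hv : σ (t + 1) * (σ t)⁻¹ ∈ Ev n := two _ hq _ (inv_mem hp) (by simp)
    have pp : σ t * σ t ∈ Ev n := two _ hp _ hp (by simp)
    have e1 : σ t * (σ (t + 1) * (σ t)⁻¹) * (σ t)⁻¹ =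
        ((σ t)⁻¹ * σ (t + 1))⁻¹ * (σ (t + 1) * (σ t)⁻¹) := by
      calc σ t * (σ (t + 1) * (σ t)⁻¹) * (σ t)⁻¹
          = (σ (t + 1))⁻¹ * (σ (t + 1) * σ t * σ (t + 1)) * (σ t)⁻¹ * (σ t)⁻¹ := by group
        _ = _ := by rw [← σ_braid]; group
    have a1 := dc _ pp _ hu
    have a2 := dc _ pp _ hv
    rw [show σ t * σ t * ((σ t)⁻¹ * σ (t + 1)) * (σ t * σ t)⁻¹ =
      σ t * (σ (t + 1) * (σ t)⁻¹) * (σ t)⁻¹ by group, e1, hd _ (inv_mem hu) _ hv, di _ hu] at a1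
    rw [show σ t * σ t * (σ (t + 1) * (σ t)⁻¹) * (σ t * σ t)⁻¹ =
      σ t * (σ t * (σ (t + 1) * (σ t)⁻¹) * (σ t)⁻¹) * (σ t)⁻¹ by group, e1,
      show σ t * (((σ t)⁻¹ * σ (t + 1))⁻¹ * (σ (t + 1) * (σ t)⁻¹)) * (σ t)⁻¹ =
        (σ (t + 1) * (σ t)⁻¹)⁻¹ * (σ t * (σ (t + 1) * (σ t)⁻¹) * (σ t)⁻¹) by group, e1,
      hd _ (inv_mem hv) _ (mul_mem (inv_mem hu) hv), hd _ (inv_mem hu) _ hv, di _ hu,
      di _ hv] at a2
    refine ⟨hv, by omega, ?_⟩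
    rw [show σ 0 * (σ (t + 1) * (σ t)⁻¹) * (σ 0)⁻¹ = σ 0 * (σ t)⁻¹ *
      (σ t * (σ (t + 1) * (σ t)⁻¹) * (σ t)⁻¹) * (σ 0 * (σ t)⁻¹)⁻¹ by group,
      dc _ (two _ s0 _ (inv_mem hp) (by simp)) _ (cj _ hp _ hv), e1, hd _ (inv_mem hu) _ hv,
      di _ hu]
    omega

theorem dg_F {n k : ℕ} (hn : 2 ≤ n) (F : Ev n →* S 0 k) (x : Ev n) (h : dg x = 0) :
    dg (F x) = 0 := by
  have := add_zero_of_dg hn (fun x => if h : x ∈ Ev n then dg (F ⟨x, h⟩) else 0)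
    (fun x hx y hy => by
      rw [dif_pos hx, dif_pos hy, dif_pos (mul_mem hx hy), ← dg_mul, ← Subgroup.coe_mul, ← map_mul]
      rfl) x.2.1 h
  rwa [dif_pos x.2] at this

theorem dg_comm {n : ℕ} (y : commutator (Braid n)) : dg (ι n y) = 0 :=
  congrArg Multiplicative.toAdd
    (MonoidHom.mem_ker.1 (Abelianization.commutator_subset_ker (deg.comp (ι n)) y.2))

theorem main {n m : ℕ} (hn : 4 ≤ n) (hm : n.factorial ≤ 8 * m) :
    ∃ ψ : commutator (Braid n) →* commutator (Braid m),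
      (5 ≤ n → Function.Injective ψ) ∧
      ¬ ∃ φ : Braid n →* Braid m, ∀ x : commutator (Braid n), φ x = ψ x := by
  obtain ⟨k, hk, F, hF, hI⟩ := exists_F hn
  have h24 : Nat.factorial 4 ≤ n.factorial := Nat.factorial_le hn
  have h4 : Nat.factorial 4 = 24 := rfl
  let j : commutator (Braid n) →* Ev n :=
    ((ι n).comp (commutator (Braid n)).subtype).codRestrict (Ev n) fun y =>
      ⟨ι_mem n y, by
        have : dg (ι n y) % 2 = 0 := by rw [dg_comm]; rfl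
        exact this⟩
  let ψ : commutator (Braid n) →* Braid m :=
    (rho m).comp ((Subgroup.inclusion (S_mono le_rfl (by omega : k ≤ m))).comp (F.comp j))
  have hψ : ∀ y, ι m (ψ y) = F (j y) := fun y => ι_rho m _
  have hmem : ∀ y, ψ y ∈ commutator (Braid m) := fun y => by
    obtain ⟨z, hz, e⟩ := mem_comm (n := m) (by omega) (ι_mem m (ψ y))
      (by rw [hψ]; exact dg_F (by omega) F _ (dg_comm y))
    rwa [← ι_injective m e]
  refine ⟨ψ.codRestrict _ hmem, fun h5 x y e => ?_, ?_⟩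
  · have e1 : ψ x = ψ y := congrArg Subtype.val e
    have e2 : F (j x) = F (j y) := Subtype.ext (by rw [← hψ, ← hψ, e1])
    exact Subtype.ext (ι_injective n (congrArg Subtype.val (hI h5 e2)))
  · rintro ⟨φ, hφ⟩
    refine hF ⟨ι m (φ (bg n 0)), fun x y hx hy => ?_⟩
    obtain ⟨z, hz, e⟩ := mem_comm (n := n) (by omega) x.2.1 hx
    have hN : (commutator (Braid n)).Normal := inferInstance
    have e1 : j ⟨z, hz⟩ = x := Subtype.ext e
    have e2 : j ⟨_, hN.conj_mem z hz (bg n 0)⟩ = y := Subtype.ext (by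
      show ι n (bg n 0 * z * (bg n 0)⁻¹) = y
      rw [map_mul, map_mul, map_inv, ι_bg (by omega), e, hy])
    have e3 : φ z = ψ ⟨z, hz⟩ := hφ ⟨z, hz⟩
    have e4 : φ (bg n 0 * z * (bg n 0)⁻¹) = ψ ⟨_, hN.conj_mem z hz (bg n 0)⟩ :=
      hφ ⟨_, hN.conj_mem z hz (bg n 0)⟩
    rw [← e1, ← e2, ← hψ, ← hψ, ← e3, ← e4]
    simp only [map_mul, map_inv]

end Pool.Agent.MP_a9a3e0_al
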