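import Pool.Agent.MP_a9a3e0_al.Cab

/-! The induction step: a map on even braids with `n` strands gives one with `n + 1` strands. -/

set_option autoImplicit false

noncomputable section

namespace Pool.Agent.MP_a9a3e0_al

open Equiv Classical

/-- braids of even degree on `n` strands -/
def Ev (n : ℕ) : Subgroup G where
  carrier := {x | x ∈ S 0 n ∧ dg x % 2 = 0}
  one_mem' := ⟨one_mem _, by simp⟩
  mul_mem' {x y} hx hy := ⟨mul_mem hx.1 hy.1, by
    have h1 := hx.2; have h2 := hy.2; rw [dg_mul]; omega⟩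
  inv_mem' {x} hx := ⟨inv_mem hx.1, by have h1 := hx.2; rw [dg_inv]; omega⟩

/-- conjugation by `σ 0` on the braids of degree zero is not induced by any braid -/
def NoSwap {n k : ℕ} (F : Ev n →* S 0 k) : Prop :=
  ¬ ∃ s : G, ∀ x y : Ev n, dg x = 0 → (y : G) = σ 0 * x * (σ 0)⁻¹ → s * F x * s⁻¹ = F y

/-- all strands up to `n` except `i` -/
def Am (n i : ℕ) : Set ℕ := {t | t ≤ n ∧ t ≠ i}

theorem act_Am {n : ℕ} {x : G} (hx : x ∈ S 0 (n + 1)) (i : ℕ) :
    act x (Am n i) = Am n (perm x i) := by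
  ext t
  have h := perm_lt (inv_mem hx) (Or.inr le_rfl) t
  simp only [mem_act, Am, Set.mem_ofPred_eq]
  refine and_congr (by omega) (not_congr ⟨fun h => ?_, fun h => ?_⟩)
  · rw [← h, perm_perm_inv]
  · rw [h, perm_inv_perm]

theorem perm_le {n i : ℕ} {x : G} (hx : x ∈ S 0 (n + 1)) (hi : i ≤ n) : perm x i ≤ n := by
  have h := perm_lt hx (Or.inr le_rfl) i
  omega

theorem rk_Am {n i : ℕ} (hi : i ≤ n) (t : ℕ) : rk (Am n i) t ≤ n := by
  have h : rk (Am n i) t + (if i < t then 1 else 0) ≤ min t (n + 1) := by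
    induction t with
    | zero => simp
    | succ t ih =>
      rw [rk_succ]
      simp only [Am, Set.mem_ofPred_eq] at ih ⊢
      split_ifs at ih ⊢ <;> omega
  split_ifs at h <;> omega

theorem del_par {n : ℕ} {x : G} (hx : x ∈ S 0 (n + 1)) (i : ℕ) (hi : i ≤ n) :
    (dg (del (Am n i) x) + dg x + perm x i + i) % 2 = 0 := by
  revert i
  refine SS_ind (C := fun x => ∀ i, i ≤ n → (dg (del (Am n i) x) + dg x + perm x i + i) % 2 = 0)
    (fun i _ => by simp; omega) (fun j hj i hi => ?_) (fun x y _ hy a b i hi => ?_)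
    (fun x hx a i hi => ?_) hx
  · rw [del_σ, perm_σ_apply]
    simp only [Am, Set.mem_ofPred_eq]
    split_ifs <;> simp only [dg_σ, dg_one] <;> omega
  · have h1 := a _ (perm_le hy hi)
    have h2 := b i hi
    rw [del_mul, act_Am hy, dg_mul, dg_mul, perm_mul]
    omega
  · have h1 := a _ (perm_le (inv_mem hx) hi)
    rw [perm_perm_inv] at h1
    rw [del_inv, act_Am (inv_mem hx), dg_inv, dg_inv]
    omega

/-- delete the strand `i` and correct the parity -/
def gi (n : ℕ) (x : G) (i : ℕ) : G :=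
  (σ 0 ^ (n - perm x i))⁻¹ * del (Am n i) x * σ 0 ^ (n - i)

theorem gi_mul {n : ℕ} (x : G) {y : G} (hy : y ∈ S 0 (n + 1)) (i : ℕ) :
    gi n (x * y) i = gi n x (perm y i) * gi n y i := by
  unfold gi
  rw [del_mul, act_Am hy, perm_mul]
  group

theorem gi_mem {n : ℕ} (hn : 2 ≤ n) (x : Ev (n + 1)) (i : Fin (n + 1)) : gi n x i ∈ Ev n := by
  have hi : i.val ≤ n := Nat.lt_succ_iff.1 i.2
  have h0 : σ 0 ∈ S 0 n := σ_mem le_rfl (by omega)
  refine ⟨mul_mem (mul_mem (inv_mem (pow_mem h0 _)) (del_mem _ (rk_Am hi))) (pow_mem h0 _), ?_⟩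
  have h1 := del_par x.2.1 _ hi
  have h2 := x.2.2
  have h3 := perm_le x.2.1 hi
  simp only [gi, dg_mul, dg_inv, dg_pow, dg_σ, mul_one]
  omega

theorem gi_last {n : ℕ} {x : G} (hx : x ∈ S 0 n) : gi n x n = x := by
  unfold gi
  rw [perm_fix hx (Or.inr le_rfl), Nat.sub_self, pow_zero, inv_one, one_mul, mul_one]
  exact del_low (A := Am n n) (fun t ht => ⟨by omega, by omega⟩) hx

/-- a braid placed in the block `i` -/
def E (k i : ℕ) : S 0 k →* G := (sh (i * k)).comp (S 0 k).subtype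

theorem E_comm (k : ℕ) {i j : ℕ} (h : i < j) (x y : S 0 k) : E k i x * E k j y = E k j y * E k i x := by
  have : (i + 1) * k ≤ j * k := Nat.mul_le_mul_right k h
  rw [add_mul, one_mul] at this
  exact S_comm (by omega) (sh_mem _ x.2) (sh_mem _ y.2)

/-- braids placed in all blocks -/
def P (N k : ℕ) : (Fin N → S 0 k) →* G :=
  MonoidHom.noncommPiCoprod (fun i : Fin N => E k i) fun i j h x y => by
    rcases lt_or_gt_of_ne h with h1 | h1
    · exact E_comm k h1 x y
    · exact (E_comm k h1 y x).symm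

theorem P_single (N k : ℕ) (i : Fin N) (y : S 0 k) : P N k (Pi.mulSingle i y) = sh (i * k) y :=
  MonoidHom.noncommPiCoprod_mulSingle _ _ _

theorem sh_in {k i : ℕ} {y : G} (hy : y ∈ S 0 k) :
    sh (i * k) y ∈ SS fun t => t / k = i ∧ (t + 1) / k = i :=
  SS_le (fun t ht => σ_mem_SS ⟨div_eq (by omega) (by omega), div_eq (by omega) (by omega)⟩)
    (sh_mem (i * k) hy)

theorem P_mem {N k : ℕ} (c : Fin N → S 0 k) :
    P N k c ∈ SS fun t => t / k = (t + 1) / k ∧ t + 1 < N * k := by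
  have : (P N k).range ≤ SS fun t => t / k = (t + 1) / k ∧ t + 1 < N * k := by
    rw [P, MonoidHom.noncommPiCoprod_range]
    refine iSup_le fun i => ?_
    rintro _ ⟨y, rfl⟩
    have h1 : (i.val + 1) * k ≤ N * k := Nat.mul_le_mul_right k i.2
    rw [add_mul, one_mul] at h1
    exact SS_le (fun t ht => σ_mem_SS ⟨(div_eq (i := i) (by omega) (by omega)).trans
      (div_eq (by omega) (by omega)).symm, by omega⟩) (sh_mem (i * k) y.2)
  exact this ⟨c, rfl⟩

theorem perm_P {N k : ℕ} (c : Fin N → S 0 k) (t : ℕ) : perm (P N k c) t / k = t / k :=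
  perm_pres (fun t => t / k) (fun _ h => h.1) (P_mem c) t

theorem act_P_Bk {N k : ℕ} (c : Fin N → S 0 k) (i : ℕ) : act (P N k c) (Bk k i) = Bk k i :=
  act_inv (fun t ht => by simp only [Bk, Set.mem_ofPred_eq, ht.1]) (P_mem c)

theorem del_P_Bk {N k : ℕ} (hk : 0 < k) (c : Fin N → S 0 k) (i : Fin N) :
    del (Bk k i) (P N k c) = c i := by
  have : MonoidHom.mk' (fun c => del (Bk k i) (P N k c))
      (fun c d => by rw [map_mul, del_mul, act_P_Bk]) =
      (S 0 k).subtype.comp (Pi.evalMonoidHom (fun _ : Fin N => S 0 k) i) := by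
    refine MonoidHom.pi_ext fun j y => ?_
    show del (Bk k i) (P N k (Pi.mulSingle j y)) = ((Pi.mulSingle j y : Fin N → S 0 k) i : S 0 k)
    rw [P_single]
    by_cases h : i = j
    · subst h
      rw [Pi.mulSingle_eq_same]
      refine del_sh (fun t h1 h2 => div_eq h1 h2) ?_ y.2
      have := rk_none (A := Bk k i) (a := 0) (i * k) fun t _ h2 h3 => by
        have := of_div_eq hk h3; omega
      rwa [zero_add, rk_zero] at this
    · rw [Pi.mulSingle_eq_of_ne h]
      refine del_out (fun t ht => ⟨fun h1 => h (Fin.ext ?_), fun h1 => h (Fin.ext ?_)⟩) (sh_in y.2)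
      · exact Eq.trans (Eq.symm h1) ht.1
      · exact Eq.trans (Eq.symm h1) ht.2
  exact DFunLike.congr_fun this c

/-- a braid on `N` strands permutes `Fin N` -/
def pf {N : ℕ} {x : G} (hx : x ∈ S 0 N) (i : Fin N) : Fin N :=
  ⟨perm x i, (perm_lt hx (Or.inr le_rfl) i).2 i.2⟩

theorem cab_P {N k : ℕ} {x : G} (hx : x ∈ S 0 N) (d : Fin N → S 0 k) :
    cab k x * P N k (fun i => d (pf hx i)) = P N k d * cab k x := by
  have hinj : Function.Injective (pf hx) := fun i j h =>
    Fin.ext ((perm x).injective (congrArg Fin.val h))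
  have : MonoidHom.mk' (fun d : Fin N → S 0 k => cab k x * P N k (fun i => d (pf hx i)) *
      (cab k x)⁻¹) (fun c d => by
        rw [show (fun i => (c * d) (pf hx i)) = (fun i => c (pf hx i)) * fun i => d (pf hx i)
          from rfl, map_mul]
        group) = P N k := by
    refine MonoidHom.pi_ext fun j y => ?_
    obtain ⟨i, rfl⟩ := Finite.surjective_of_injective hinj j
    have e : (fun l => (Pi.mulSingle (pf hx i) y : Fin N → S 0 k) (pf hx l)) =
        Pi.mulSingle i y := by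
      funext l
      by_cases h : l = i
      · rw [h, Pi.mulSingle_eq_same, Pi.mulSingle_eq_same]
      · rw [Pi.mulSingle_eq_of_ne h, Pi.mulSingle_eq_of_ne (hinj.ne h)]
    show cab k x * P N k _ * (cab k x)⁻¹ = _
    rw [e, P_single, P_single, cab_sh k x i y.2, mul_inv_cancel_right]; rfl
  rw [← DFunLike.congr_fun this d]
  exact (inv_mul_cancel_right _ _).symm

section step

variable {n k : ℕ} (hn : 2 ≤ n) (F : Ev n →* S 0 k)

/-- the braids inside the cables -/
def cc (x : Ev (n + 1)) (i : Fin (n + 1)) : S 0 k := F ⟨gi n x i, gi_mem hn x i⟩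

theorem cc_mul (x y : Ev (n + 1)) :
    cc hn F (x * y) = (fun i => cc hn F x (pf y.2.1 i)) * cc hn F y := by
  funext i
  rw [Pi.mul_apply, cc, cc, cc, ← map_mul]
  exact congrArg F (Subtype.ext (gi_mul _ y.2.1 i))

/-- the induced map -/
def step : Ev (n + 1) →* S 0 ((n + 1) * k) :=
  MonoidHom.mk' (fun x => ⟨cab k x * P (n + 1) k (cc hn F x), mul_mem (cab_mem k x.2.1)
    (SS_le (fun t ht => σ_mem (Nat.zero_le _) ht.2) (P_mem _))⟩) fun x y => Subtype.ext (by
      show cab k (x * y : G) * P (n + 1) k (cc hn F (x * y)) =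
        cab k x * P (n + 1) k (cc hn F x) * (cab k y * P (n + 1) k (cc hn F y))
      rw [cc_mul, map_mul, map_mul, mul_assoc, ← mul_assoc (cab k y), cab_P y.2.1]
      simp only [mul_assoc])

theorem step_val (x : Ev (n + 1)) :
    (step hn F x : G) = cab k x * P (n + 1) k (cc hn F x) := rfl

theorem del_step (hk : 0 < k) (x : Ev (n + 1)) {A : Set ℕ} (hA : Set.InjOn (fun t => t / k) A) :
    del A (step hn F x) = del (dv k A) x := by
  have h1 : ∀ t, perm (P (n + 1) k (cc hn F x))⁻¹ t / k = t / k := fun t => by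
    rw [← map_inv, perm_P]
  rw [step_val, del_mul, del_sep (fun t => t / k) (fun _ h => h.1) (P_mem _) hA, mul_one,
    del_cab hk]
  · rw [act_eq_image, dv, dv, Set.image_image]
    simp only [perm_P]
  · intro u hu v hv e
    refine (perm (P (n + 1) k (cc hn F x))⁻¹).injective (hA hu hv ?_)
    have e' : u / k = v / k := e
    simp only [h1, e']

theorem step_injective (hk : 0 < k) : Function.Injective (step hn F) := by
  rw [injective_iff_map_eq_one]
  intro x hx
  have h := del_step hn F hk x (A := {t | k ∣ t}) (by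
    rintro _ ⟨u, rfl⟩ _ ⟨v, rfl⟩ e
    simp only [Nat.mul_div_cancel_left _ hk] at e
    rw [e])
  rw [hx, del_low (A := dv k {t | k ∣ t}) (k := n + 1)
    (fun t _ => ⟨k * t, ⟨t, rfl⟩, Nat.mul_div_cancel_left _ hk⟩) x.2.1] at h
  exact Subtype.ext (by rw [← h]; exact del_one _)

theorem del_step_pair (hk : 0 < k) (x : Ev (n + 1)) {u v : ℕ} (h : u / k ≠ v / k) :
    del {u, v} (step hn F x) = del {u / k, v / k} x := by
  rw [del_step hn F hk, dv, Set.image_pair]
  rintro a (rfl | rfl) b (rfl | rfl) e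
  · rfl
  · exact absurd e h
  · exact absurd e.symm h
  · rfl

theorem del_step_last (hk : 0 < k) (y : Ev n) (x : Ev (n + 1)) (h : (x : G) = y) :
    act (step hn F x) (Bk k n) = Bk k n ∧ del (Bk k n) (step hn F x) = F y := by
  rw [step_val, act_mul, del_mul, act_P_Bk, act_cab_Bk hk, del_cab_Bk hk, one_mul, h,
    perm_fix y.2.1 (Or.inr le_rfl)]
  refine ⟨rfl, (del_P_Bk hk _ (Fin.last n)).trans ?_⟩
  unfold cc
  congr 2
  refine Subtype.ext ?_
  show gi n x n = y
  rw [h, gi_last y.2.1]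

end step

theorem exists_pow_pure {m : ℕ} {w : G} (hw : w ∈ S 0 m) : ∃ N, 0 < N ∧ perm (w ^ N) = 1 := by
  have h := Perm.ofSubtype_subtypePerm (p := fun t => t < m) (f := perm w)
    (perm_lt hw (Or.inr le_rfl)) (fun t ht => by
      by_contra h1
      exact ht (perm_fix hw (Or.inr (not_lt.1 h1))))
  have h2 : IsOfFinOrder (perm w) := by
    rw [← h]; exact MonoidHom.isOfFinOrder _ (isOfFinOrder_of_finite _)
  obtain ⟨N, h3, h4⟩ := isOfFinOrder_iff_pow_eq_one.1 h2
  exact ⟨N, h3, by rw [map_pow, h4]⟩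

theorem lk_conj {y : G} (hy : perm y = 1) (w : G) (u v : ℕ) :
    dg (del {perm w u, perm w v} (w * y * w⁻¹)) = dg (del {u, v} y) := by
  rw [← act_pair, del_conj (act_of_perm hy _)]
  simp

theorem lk_pow {y : G} (hy : perm y = 1) (N : ℕ) (A : Set ℕ) :
    dg (del A (y ^ N)) = N * dg (del A y) := by
  rw [(del_pow (act_of_perm hy A) N).2, dg_pow]

theorem pure_conj {y : G} (hy : perm y = 1) (w : G) : perm (w * y * w⁻¹) = 1 := by
  rw [map_mul, map_mul, hy, mul_one, ← map_mul, mul_inv_cancel, map_one]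

/-- a pure braid of degree zero that links the strand `n` and leaves the strand `j` free -/
theorem exists_test {n j : ℕ} (hn : 4 ≤ n) (hj : j ≠ n) : ∃ x ∈ S 0 (n + 1), dg x = 0 ∧
    perm x = 1 ∧ (∀ v, dg (del {j, v} x) = 0) ∧ ∃ p < n, dg (del {n, p} x) ≠ 0 := by
  obtain ⟨m, rfl⟩ : ∃ m, n = m + 1 := ⟨n - 1, by omega⟩
  have sq : ∀ t, perm (σ t * σ t) = 1 := fun t => by rw [map_mul, perm_σ, swap_mul_self]
  have y1 : σ m * σ m * (σ 1 * σ 1)⁻¹ ∈ SS fun t => t = m ∨ t = 1 :=
    mul_mem (mul_mem (σ_mem_SS (Or.inl rfl)) (σ_mem_SS (Or.inl rfl)))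
      (inv_mem (mul_mem (σ_mem_SS (Or.inr rfl)) (σ_mem_SS (Or.inr rfl))))
  have y2 : σ m * σ m * (σ 1 * σ 1)⁻¹ ∈ S 0 (m + 1 + 1) :=
    SS_le (fun t ht => σ_mem (by omega) (by omega)) y1
  have y3 : perm (σ m * σ m * (σ 1 * σ 1)⁻¹) = 1 := by rw [map_mul, map_inv, sq, sq]; rfl
  have y4 : ∀ j, j = 0 ∨ m + 1 < j → ∀ v, dg (del {j, v} (σ m * σ m * (σ 1 * σ 1)⁻¹)) = 0 :=
    fun j hj v => by
      rw [del_sep (fun t => t = j) (fun t ht => propext (by omega)) y1, dg_one]
      rintro a (rfl | rfl) b (rfl | rfl) e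
      · rfl
      · exact (e.mp rfl).symm
      · exact e.mpr rfl
      · rfl
  have y5 : dg (del {m + 1, m} (σ m * σ m * (σ 1 * σ 1)⁻¹)) ≠ 0 := by
    have e : act (σ m) {m + 1, m} = {m + 1, m} := by
      rw [act_pair, perm_σ_apply, perm_σ_apply, if_neg (by omega), if_pos rfl, if_pos rfl,
        Set.pair_comm]
    rw [del_mul, act_of_perm (by rw [map_inv, sq]; rfl), del_out (p := fun t => t = 1)
      (fun t ht => by simp only [Set.mem_insert_iff, Set.mem_singleton_iff]; omega)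
      (inv_mem (mul_mem (σ_mem_SS rfl) (σ_mem_SS rfl))), mul_one, del_mul, e, del_σ,
      if_pos (by simp)]
    simp
  rcases lt_or_gt_of_ne hj with h | h
  · have w1 : (up 0 j)⁻¹ ∈ S 0 (m + 1) := inv_mem (S_mono le_rfl (by omega) (up_mem 0 j))
    have w2 : perm (up 0 j)⁻¹ 0 = j := by
      have : perm (up 0 j) j = 0 := by rw [perm_up]; split_ifs <;> omega
      have h3 := perm_inv_perm (up 0 j) j
      rwa [this] at h3
    have w3 : (up 0 j)⁻¹ ∈ S 0 (m + 1 + 1) := S_mono le_rfl (by omega) w1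
    refine ⟨_, mul_mem (mul_mem w3 y2) (inv_mem w3), by simp, pure_conj y3 _, fun v => ?_,
      perm (up 0 j)⁻¹ m, (perm_lt w1 (Or.inr le_rfl) m).2 (by omega), ?_⟩
    · have := lk_conj y3 (up 0 j)⁻¹ 0 (perm (up 0 j) v)
      rw [w2, perm_inv_perm, y4 0 (Or.inl rfl)] at this
      exact this
    · have := lk_conj y3 (up 0 j)⁻¹ (m + 1) m
      rw [perm_fix w1 (Or.inr le_rfl)] at this
      rwa [this]
  · exact ⟨_, y2, by simp, y3, y4 j (Or.inr h), m, by omega, y5⟩

theorem step_noSwap {n k : ℕ} (hn : 4 ≤ n) (hk : 0 < k) {F : Ev n →* S 0 k} (hF : NoSwap F) :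
    NoSwap (step (by omega : 2 ≤ n) F) := by
  rintro ⟨s, hs⟩
  have h2 : 2 ≤ n := by omega
  have key : ∀ u, u / k = n → perm s u / k = n := fun u hu => by
    by_contra hj
    obtain ⟨x', m1, m2, m3, m4, p, hp, m5⟩ := exists_test hn hj
    have h0 : σ 0 ∈ S 0 (n + 1) := σ_mem le_rfl (by omega)
    have h0' : (σ 0)⁻¹ ∈ S 0 n := inv_mem (σ_mem le_rfl (by omega))
    let X' : Ev (n + 1) := ⟨x', m1, by rw [m2]; rfl⟩
    let X : Ev (n + 1) := ⟨(σ 0)⁻¹ * x' * (σ 0)⁻¹⁻¹,
      mul_mem (mul_mem (inv_mem h0) m1) (inv_mem (inv_mem h0)), by simp [m2]⟩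
    obtain ⟨N, hN, hp1⟩ := exists_pow_pure (step h2 F X).2
    have e := hs (X ^ N) (X' ^ N) (by simp [X, m2]) (by
      simp only [X, X', SubmonoidClass.coe_pow, conj_pow]; group)
    have hp2 : perm (step h2 F (X ^ N)) = 1 := by rw [map_pow]; exact hp1
    have hX : perm (X : G) = 1 := pure_conj m3 _
    have l1 := lk_conj m3 (σ 0)⁻¹ n p
    rw [perm_fix h0' (Or.inr le_rfl)] at l1
    have hp' : perm (σ 0)⁻¹ p < n := (perm_lt h0' (Or.inr le_rfl) p).2 hp
    have all : ∀ v, v / k = perm (σ 0)⁻¹ p → perm s v / k = perm s u / k := fun v hv => by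
      by_contra hne
      have l2 := lk_conj hp2 s u v
      rw [e, del_step_pair h2 F hk _ (Ne.symm hne), del_step_pair h2 F hk _ (by omega), hu, hv,
        SubmonoidClass.coe_pow, SubmonoidClass.coe_pow, lk_pow m3, lk_pow hX, m4, mul_zero] at l2
      rcases mul_eq_zero.1 l2.symm with h | h
      · omega
      · exact m5 (l1.symm.trans h)
    have hu' : u ∉ Finset.Ico (perm (σ 0)⁻¹ p * k) (perm (σ 0)⁻¹ p * k + k) := fun h => by
      have := div_eq (Finset.mem_Ico.1 h).1 (Finset.mem_Ico.1 h).2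
      omega
    have hc := Finset.card_le_card_of_injOn (s := insert u (Finset.Ico (perm (σ 0)⁻¹ p * k)
      (perm (σ 0)⁻¹ p * k + k))) (t := Finset.Ico (perm s u / k * k) (perm s u / k * k + k))
      (perm s) (fun v hv => by
        rw [Finset.mem_coe, Finset.mem_Ico]
        refine of_div_eq hk ?_
        rcases Finset.mem_insert.1 hv with rfl | hv
        · rfl
        · exact all v (div_eq (Finset.mem_Ico.1 hv).1 (Finset.mem_Ico.1 hv).2))
      (perm s).injective.injOn
    rw [Finset.card_insert_of_notMem hu', Nat.card_Ico, Nat.card_Ico] at hc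
    omega
  have hB : act s (Bk k n) = Bk k n := by
    rw [act_eq_image]
    refine Set.eq_of_subset_of_ncard_le ?_ (Set.ncard_image_of_injective _ (perm s).injective).ge
      ((Set.finite_lt_nat (n * k + k)).subset fun t ht => (of_div_eq hk ht).2)
    rintro _ ⟨u, hu, rfl⟩
    exact key u hu
  refine hF ⟨del (Bk k n) s, fun x y hx hy => ?_⟩
  let X : Ev (n + 1) := ⟨x, S_mono le_rfl (by omega) x.2.1, x.2.2⟩
  let Y : Ev (n + 1) := ⟨y, S_mono le_rfl (by omega) y.2.1, y.2.2⟩
  have a := del_step_last h2 F hk x X rfl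
  have b := del_step_last h2 F hk y Y rfl
  rw [← a.2, ← b.2, ← del_conj a.1, hB, hs X Y hx hy]

end Pool.Agent.MP_a9a3e0_al
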