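import Pool.Agent.MP_a9a3e0_al.Defs

/-! Extension of homomorphisms between commutator subgroups. -/

set_option autoImplicit false

namespace Pool.Agent.MP_a9a3e0_al

/-- `ψ : [G, G] → [H, H]` is the restriction of a homomorphism `G → H` -/
def Extends {G H : Type} [Group G] [Group H] (ψ : commutator G →* commutator H) : Prop :=
  ∃ φ : G →* H, ∀ x : commutator G, φ x = ψ x

/-- there is a nontrivial homomorphism `[G, G] → [H, H]` that does not extend and that is
injective if `p` holds -/
def HasNonExtendable (G H : Type) [Group G] [Group H] (p : Prop) : Prop :=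
  ∃ ψ : commutator G →* commutator H, ψ.range ≠ ⊥ ∧ (p → Function.Injective ψ) ∧ ¬ Extends ψ

end Pool.Agent.MP_a9a3e0_al
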